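import Mathlib
import Pool.Agent.H87.Lib.Helper292.ForceCH

/-!
# Independent families and the inequality `2 ^ ω < 2 ^ ω₁`: the sentences of the forcing language

The names and the forcing clauses are those of `Helper292.ForceCH`.
-/

set_option autoImplicit false

namespace Pool.Agent.H87.CPos

open Cardinal Set
open Pool.Agent.Helper292.ForceCH (fnot fand fall fimp fiff fex fground meets Om)

/-! ### The plain statements -/

/-- `2 ^ ω < 2 ^ ω₁`: some set `Λ` can be injected into the power set of `ω₁`, but not into the
power set of `ω`. -/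
def LuzinAx : Prop :=
  ∃ Λ : Type, (∃ X : Λ → Set Om, Function.Injective X) ∧ ¬ ∃ Y : Λ → Set ℕ, Function.Injective Y

/-- The sets `X i`, `i ∈ W`, are independent: for disjoint finite `A, B ⊆ W` some point lies in
`X i` for all `i ∈ A` and lies in `X i` for no `i ∈ B`. -/
def Indep {Λ Z : Type} (X : Λ → Set Z) (W : Set Λ) : Prop :=
  ∀ A B : Finset Λ, Disjoint A B → (∀ i, i ∈ A ∨ i ∈ B → i ∈ W) →
    ∃ z : Z, ∀ i, (i ∈ A → z ∈ X i) ∧ (i ∈ B → z ∉ X i)

/-- Every family of more than `2 ^ ω` subsets of `ω₁` has an infinite independent subfamily. -/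
def IndepAx : Prop :=
  ∀ (Λ : Type) (X : Λ → Set Om), Function.Injective X →
    (¬ ∃ Y : Λ → Set ℕ, Function.Injective Y) → ∃ W : Set Λ, W.Infinite ∧ Indep X W

/-! ### The corresponding sentences of the forcing language -/

section

variable {P : Type} [Preorder P]

/-- The sets named by `X i` are pairwise distinct. -/
def Distinct {Λ Z : Type} (X : Λ → Z → Set P) : Set P :=
  fall fun i => fall fun j => fall fun _ : i ≠ j =>
    fnot (fall fun z => fiff (meets (X i z)) (meets (X j z)))

/-- The set named by `W` is infinite: every finite set misses one of its elements. -/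
def InfiniteName {Λ : Type} (W : Λ → Set P) : Set P :=
  fall fun F : Finset Λ => fex fun i : Λ => fand (fground (i ∉ F)) (meets (W i))

/-- The sets named by `X i`, where `i` is in the set named by `W`, are independent. -/
def IndepName {Λ Z : Type} (X : Λ → Z → Set P) (W : Λ → Set P) : Set P :=
  fall fun A : Finset Λ => fall fun B : Finset Λ => fimp
    (fand (fground (Disjoint A B)) (fall fun i : Λ => fall fun _ : i ∈ A ∨ i ∈ B => meets (W i)))
    (fex fun z : Z => fall fun i : Λ => fand (fall fun _ : i ∈ A => meets (X i z))
      (fall fun _ : i ∈ B => fnot (meets (X i z))))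

variable (P)

/-- There are pairwise distinct subsets of `ω` indexed by `Λ`. -/
def AtMostContinuum (Λ : Type) : Set P := fex fun Y : Λ → ℕ → Set P => Distinct Y

/-- `2 ^ ω < 2 ^ ω₁` holds in the extension. -/
def LuzinHolds : Set P :=
  fex fun Λ : Type => fand (fex fun X : Λ → Om → Set P => Distinct X) (fnot (AtMostContinuum P Λ))

/-- In the extension, every family of more than `2 ^ ω` subsets of `ω₁` has an infinite
independent subfamily. -/
def IndepHolds : Set P :=
  fall fun Λ : Type => fall fun X : Λ → Om → Set P =>
    fimp (fand (Distinct X) (fnot (AtMostContinuum P Λ)))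
      (fex fun W : Λ → Set P => fand (InfiniteName W) (IndepName X W))

end

end Pool.Agent.H87.CPos
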