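import Pool.Agent.H87.CPos.Names

/-!
# Cohen forcing: a family of mutually generic witnesses
-/

set_option autoImplicit false

namespace Pool.Agent.H87.CPos

open Cardinal Set
open Pool.Agent.Helper292.ForceCH (fnot fand fall fimp fiff fex fground meets IsFun IsOnto Om
  OmegaOnePreserved mem_fex mem_fimp down_meets meets_of_dense fimp_of down_fnot Down)

/-! ### Closure under operations with countably many arguments -/

/-- the arities -/
def ar : Option (Set ℕ) → Type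
  | none => Empty
  | some _ => ℕ

/-- the evaluation -/
noncomputable def evalTree {J : Type} (j₀ : J) (g : (ℕ → J) → Set ℕ → J) : WType ar → J :=
  WType.elim J fun x => match x with
    | ⟨none, _⟩ => j₀
    | ⟨some A, c⟩ => g c A

theorem mk_tree : #(WType ar) ≤ 𝔠 := by
  refine WType.cardinalMk_le_of_le' ?_
  have h1 : ∀ a : Option (Set ℕ), (𝔠 : Cardinal.{0}) ^ lift.{0} #(ar a) ≤ 𝔠 := by
    intro a
    rw [lift_id]
    cases a with
    | none =>
      have : #(ar none) = 0 := by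
        show #Empty = 0
        simp
      rw [this, power_zero]
      exact one_le_aleph0.trans aleph0_le_continuum
    | some A =>
      have : #(ar (some A)) = ℵ₀ := by
        show #ℕ = ℵ₀
        simp
      rw [this, continuum_power_aleph0]
  refine (Cardinal.sum_le_sum _ (fun _ => 𝔠) h1).trans ?_
  rw [Cardinal.sum_const', mk_option, mk_set, mk_nat, two_power_aleph0]
  refine (mul_le_mul' ?_ le_rfl).trans continuum_mul_self.le
  rw [Cardinal.add_one_eq aleph0_le_continuum]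

/-- Closure under a set-valued operation with countably many arguments. -/
theorem exists_closed {J : Type} (j₀ : J) (F : (ℕ → J) → Set J) (hF : ∀ e, #(F e) ≤ 𝔠) :
    ∃ R : Set J, j₀ ∈ R ∧ #R ≤ 𝔠 ∧ ∀ e : ℕ → J, (∀ n, e n ∈ R) → F e ⊆ R := by
  classical
  have h1 : ∀ e : ℕ → J, ∃ g : Set ℕ → J, F e ⊆ range g := by
    intro e
    rcases (F e).eq_empty_or_nonempty with h | h
    · exact ⟨fun _ => j₀, by rw [h]; exact empty_subset _⟩
    · have h2 : #(F e) ≤ #(Set ℕ) := by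
        rw [mk_set, mk_nat, two_power_aleph0]
        exact hF e
      obtain ⟨φ⟩ := (Cardinal.le_def _ _).1 h2
      have : Nonempty (F e) := h.to_subtype
      refine ⟨fun A => (Function.invFun φ A).1, fun x hx => ?_⟩
      exact ⟨φ ⟨x, hx⟩, by simp only [Function.leftInverse_invFun φ.injective ⟨x, hx⟩]⟩
  choose g hg using h1
  refine ⟨range (evalTree j₀ g), ⟨WType.mk none (fun a => a.elim), rfl⟩,
    mk_range_le.trans mk_tree, fun e he => ?_⟩
  choose c hc using he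
  refine (hg e).trans ?_
  rintro _ ⟨A, rfl⟩
  refine ⟨WType.mk (some A) c, ?_⟩
  have h2 : (fun n => evalTree j₀ g (c n)) = e := funext hc
  show g (fun n => evalTree j₀ g (c n)) A = g e A
  rw [h2]

theorem mk_biUnion_le_continuum {ι α : Type} (s : Set ι) (A : ι → Set α) (hs : #s ≤ 𝔠)
    (hA : ∀ x ∈ s, #(A x) ≤ 𝔠) : #(⋃ x ∈ s, A x : Set α) ≤ 𝔠 := by
  rw [biUnion_eq_iUnion]
  refine (Cardinal.mk_iUnion_le_sum_mk).trans ?_
  refine (Cardinal.sum_le_sum _ (fun _ => 𝔠) (fun x : s => hA x.1 x.2)).trans ?_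
  rw [Cardinal.sum_const']
  exact (mul_le_mul' hs le_rfl).trans continuum_mul_self.le

/-! ### Conditions and types over a small set -/

theorem mk_over {J : Type} {R : Set J} (hR : #R ≤ 𝔠) : #{s : Fn J // s.supp ⊆ R} ≤ 𝔠 := by
  classical
  have hinj : Function.Injective fun x : R × Bool => ((x.1.1, x.2) : J × Bool) := by
    rintro ⟨a, b⟩ ⟨a', b'⟩ h
    simp only [Prod.mk.injEq] at h
    exact Prod.ext (Subtype.ext h.1) h.2
  let f : {s : Fn J // s.supp ⊆ R} → Finset (R × Bool) := fun s =>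
    s.1.s.preimage (fun x : R × Bool => ((x.1.1, x.2) : J × Bool)) hinj.injOn
  have hf : Function.Injective f := by
    have key : ∀ s s' : {s : Fn J // s.supp ⊆ R}, f s = f s' → s.1.s ⊆ s'.1.s := by
      rintro s s' h ⟨i, b⟩ hib
      have hi : i ∈ R := s.2 ⟨b, hib⟩
      have h1 : ((⟨i, hi⟩, b) : R × Bool) ∈ f s := by
        simp only [f, Finset.mem_preimage]
        exact hib
      rw [h] at h1
      simp only [f, Finset.mem_preimage] at h1
      exact h1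
    intro s s' h
    exact Subtype.ext (Fn.ext (Finset.Subset.antisymm (key s s' h) (key s' s h.symm)))
  refine (mk_le_of_injective hf).trans ?_
  rcases finite_or_infinite (R × Bool) with hfin | hinf
  · exact (Cardinal.lt_aleph0_of_finite _).le.trans aleph0_le_continuum
  · rw [Cardinal.mk_finset_of_infinite, mk_prod, lift_id, lift_id]
    refine (mul_le_mul' hR (Cardinal.lt_aleph0_of_finite Bool).le).trans ?_
    exact (mul_le_mul' le_rfl aleph0_le_continuum).trans continuum_mul_self.le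

/-- A type: a condition and a sequence of pairs (ordinal, condition). -/
abbrev Ty (J : Type) : Type := Fn J × (ℕ → Om × Fn J)

/-- the support of a type -/
def root {J : Type} (t : Ty J) : Set J := {i | i ∈ t.1.supp ∨ ∃ n, i ∈ (t.2 n).2.supp}

theorem root_countable {J : Type} (t : Ty J) : (root t).Countable := by
  have : root t = t.1.supp ∪ ⋃ n, (t.2 n).2.supp := by
    ext i
    simp [root]
  rw [this]
  exact t.1.supp_finite.countable.union (countable_iUnion fun n => (t.2 n).2.supp_finite.countable)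

theorem mk_types {J : Type} {R : Set J} (hR : #R ≤ 𝔠) : #{t : Ty J | root t ⊆ R} ≤ 𝔠 := by
  have hsub : ∀ t : {t : Ty J | root t ⊆ R}, t.1.1.supp ⊆ R ∧ ∀ n, (t.1.2 n).2.supp ⊆ R :=
    fun t => ⟨fun i hi => t.2 (Or.inl hi), fun n i hi => t.2 (Or.inr ⟨n, hi⟩)⟩
  let S := {s : Fn J // s.supp ⊆ R}
  let f : {t : Ty J | root t ⊆ R} → S × (ℕ → Om × S) := fun t =>
    (⟨t.1.1, (hsub t).1⟩, fun n => ((t.1.2 n).1, ⟨(t.1.2 n).2, (hsub t).2 n⟩))
  have hf : Function.Injective f := by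
    rintro ⟨⟨t1, t2⟩, ht⟩ ⟨⟨u1, u2⟩, hu⟩ h
    have h1 := congrArg (fun x : S × (ℕ → Om × S) => x.1.1) h
    have h2 := congrArg (fun x : S × (ℕ → Om × S) => x.2) h
    refine Subtype.ext (Prod.ext h1 (funext fun n => ?_))
    have h3 := congrFun h2 n
    exact Prod.ext (congrArg (fun x : Om × S => x.1) h3) (congrArg (fun x : Om × S => x.2.1) h3)
  refine (mk_le_of_injective hf).trans ?_
  have h1 : #(Om × S) ≤ 𝔠 := by
    rw [mk_prod, lift_id, lift_id]
    have h4 : #Om = ℵ₁ := by simp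
    rw [h4]
    exact (mul_le_mul' aleph_one_le_continuum (mk_over hR)).trans continuum_mul_self.le
  have h2 : #(ℕ → Om × S) ≤ 𝔠 := by
    rw [← Cardinal.power_def, mk_nat]
    exact (Cardinal.power_le_power_right h1).trans continuum_power_aleph0.le
  rw [mk_prod, lift_id, lift_id]
  exact (mul_le_mul' (mk_over hR) h2).trans continuum_mul_self.le

/-! ### Witnesses -/

/-- A sequence of pairs of conditions together with its root. -/
abbrev Wi (J : Type) : Type := Fn J × (ℕ → Fn J × Fn J)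

/-- the support of a witness -/
def wsupp {J : Type} (w : Wi J) : Set J :=
  {i | i ∈ w.1.supp ∨ ∃ n, i ∈ (w.2 n).1.supp ∨ i ∈ (w.2 n).2.supp}

theorem wsupp_countable {J : Type} (w : Wi J) : (wsupp w).Countable := by
  have : wsupp w = w.1.supp ∪ ⋃ n, ((w.2 n).1.supp ∪ (w.2 n).2.supp) := by
    ext i
    simp [wsupp]
  rw [this]
  exact w.1.supp_finite.countable.union (countable_iUnion fun n =>
    (w.2 n).1.supp_finite.countable.union (w.2 n).2.supp_finite.countable)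

/-- `w` is a witness of type `t`: the two conditions `(w.2 n).1` and `(w.2 n).2` decide `(t.2 n).1`
in different ways, have restriction `(t.2 n).2` to the root of `t`, and are disjoint for different
`n` outside of the condition `w.1`. -/
structure IsWi {J : Type} (M : Om → Set (Fn J)) (p₀ : Fn J) (t : Ty J) (w : Wi J) : Prop where
  le₀ : w.1 ≤ p₀
  le₁ : ∀ n, (w.2 n).1 ≤ w.1
  le₂ : ∀ n, (w.2 n).2 ≤ w.1
  mem₁ : ∀ n, (w.2 n).1 ∈ M (t.2 n).1
  mem₂ : ∀ n, (w.2 n).2 ∈ fnot (M (t.2 n).1)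
  ag₀ : Agree (root t) w.1 t.1
  ag₁ : ∀ n, Agree (root t) (w.2 n).1 (t.2 n).2
  ag₂ : ∀ n, Agree (root t) (w.2 n).2 (t.2 n).2
  disj : ∀ m n, m < n → ∀ i, (i ∈ (w.2 m).1.supp ∨ i ∈ (w.2 m).2.supp) →
    (i ∈ (w.2 n).1.supp ∨ i ∈ (w.2 n).2.supp) → i ∈ w.1.supp

/-- a good family of witnesses of type `t` -/
def GoodFam {J Λ : Type} (M : Λ → Om → Set (Fn J)) (p₀ : Fn J) (t : Ty J)
    (Q : Set (Λ × Wi J)) : Prop :=
  (∀ c ∈ Q, IsWi (M c.1) p₀ t c.2) ∧
    ∀ c ∈ Q, ∀ d ∈ Q, c ≠ d → c.1 ≠ d.1 ∧ ∀ i, i ∈ wsupp c.2 → i ∈ wsupp d.2 → i ∈ root t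

theorem exists_maxFam {J Λ : Type} (M : Λ → Om → Set (Fn J)) (p₀ : Fn J) (t : Ty J) :
    ∃ Q, GoodFam M p₀ t Q ∧ ∀ c, GoodFam M p₀ t (insert c Q) → c ∈ Q := by
  obtain ⟨T, hT⟩ := zorn_subset {Q : Set (Λ × Wi J) | GoodFam M p₀ t Q} (by
    intro c hc hch
    refine ⟨⋃₀ c, ⟨?_, ?_⟩, fun s hs => Set.subset_sUnion_of_mem hs⟩
    · rintro x ⟨A, hA, hx⟩
      exact (hc hA).1 x hx
    · rintro p ⟨A, hA, hp⟩ q ⟨B, hB, hq⟩ hpq
      rcases hch.total hA hB with h | h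
      · exact (hc hB).2 p (h hp) q hq hpq
      · exact (hc hA).2 p hp q (h hq) hpq)
  exact ⟨T, hT.prop, fun c hc => hT.le_of_ge hc (Set.subset_insert c T) (Set.mem_insert c T)⟩

theorem exists_witness {J : Type} (M : Om → Set (Fn J)) (p₀ : Fn J) (R : Set J)
    (h : ∀ a : Set J, a.Countable → ∃ (z : Om) (p q : Fn J), (p ≤ p₀ ∧ q ≤ p₀ ∧ Agree R p q ∧
      p ∈ M z ∧ q ∈ fnot (M z)) ∧ Agree a p q) :
    ∃ (t : Ty J) (w : Wi J), root t ⊆ R ∧ IsWi M p₀ t w ∧ ∀ i ∈ wsupp w, i ∈ R → i ∈ root t := by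
  classical
  obtain ⟨r, hr⟩ := exists_root (fun (z : Om) p q => p ≤ p₀ ∧ q ≤ p₀ ∧ Agree R p q ∧
      p ∈ M z ∧ q ∈ fnot (M z)) h
  have hrp : r ≤ p₀ := by
    obtain ⟨z, p, q, ⟨h1, -, -, -, -⟩, -, h2, -, h3⟩ := hr p₀.supp p₀.supp_finite.countable
    rintro ⟨i, b⟩ hib
    obtain ⟨c, hc⟩ := h3 i ⟨b, hib⟩ (Or.inl (Fn.supp_mono h1 ⟨b, hib⟩))
    rwa [p.eq_of (h1 hib) (h2 hc)]
  obtain ⟨f, hf1, hf2⟩ := exists_seq_of_forall_finset_exists
    (fun x : Om × Fn J × Fn J => (x.2.1 ≤ p₀ ∧ x.2.2 ≤ p₀ ∧ Agree R x.2.1 x.2.2 ∧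
      x.2.1 ∈ M x.1 ∧ x.2.2 ∈ fnot (M x.1)) ∧ x.2.1 ≤ r ∧ x.2.2 ≤ r)
    (fun x y => ∀ i, (i ∈ x.2.1.supp ∨ i ∈ x.2.2.supp) → (i ∈ y.2.1.supp ∨ i ∈ y.2.2.supp) →
      i ∈ r.supp) (by
    intro s _
    obtain ⟨z, p, q, h1, -, h3, h4, h5⟩ := hr (⋃ x ∈ s, (x.2.1.supp ∪ x.2.2.supp))
      ((Finset.countable_toSet s).biUnion fun x _ =>
        x.2.1.supp_finite.countable.union x.2.2.supp_finite.countable)
    refine ⟨(z, p, q), ⟨h1, h3, h4⟩, fun x hx i hi hi' => h5 i ?_ hi'⟩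
    exact mem_iUnion₂.2 ⟨x, hx, hi⟩)
  let t : Ty J := (r.res R, fun n => ((f n).1, (f n).2.1.res R))
  let w : Wi J := (r, fun n => ((f n).2.1, (f n).2.2))
  have htR : root t ⊆ R := by
    rintro i (hi | ⟨n, hi⟩)
    · exact Fn.supp_res hi
    · exact Fn.supp_res hi
  refine ⟨t, w, htR, ⟨hrp, fun n => (hf1 n).2.1, fun n => (hf1 n).2.2, fun n => (hf1 n).1.2.2.2.1,
    fun n => (hf1 n).1.2.2.2.2, ?_, ?_, ?_, fun m n hmn => hf2 m n hmn⟩, ?_⟩
  · intro i hi b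
    exact ⟨fun h' => Fn.mem_res.2 ⟨h', htR hi⟩, fun h' => (Fn.mem_res.1 h').1⟩
  · intro n i hi b
    exact ⟨fun h' => Fn.mem_res.2 ⟨h', htR hi⟩, fun h' => (Fn.mem_res.1 h').1⟩
  · intro n i hi b
    rw [← (hf1 n).1.2.2.1 i (htR hi) b]
    exact ⟨fun h' => Fn.mem_res.2 ⟨h', htR hi⟩, fun h' => (Fn.mem_res.1 h').1⟩
  · rintro i (⟨b, hb⟩ | ⟨n, ⟨b, hb⟩ | ⟨b, hb⟩⟩) hiR
    · exact Or.inl ⟨b, Fn.mem_res.2 ⟨hb, hiR⟩⟩
    · exact Or.inr ⟨n, b, Fn.mem_res.2 ⟨hb, hiR⟩⟩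
    · exact Or.inr ⟨n, b, Fn.mem_res.2 ⟨((hf1 n).1.2.2.1 i hiR b).2 hb, hiR⟩⟩

/-- **The family lemma.** -/
theorem exists_family {J Λ : Type} (j₀ : J) (M : Λ → Om → Set (Fn J)) (p₀ : Fn J)
    (h : ∀ (R : Set J) (U : Set Λ), #R ≤ 𝔠 → #U ≤ 𝔠 → ∃ x, x ∉ U ∧
      ∀ a : Set J, a.Countable → ∃ (z : Om) (p q : Fn J), (p ≤ p₀ ∧ q ≤ p₀ ∧ Agree R p q ∧
        p ∈ M x z ∧ q ∈ fnot (M x z)) ∧ Agree a p q) :
    ∃ (t : Ty J) (Z : Set Λ) (w : Λ → Wi J), Z.Infinite ∧ (∀ x ∈ Z, IsWi (M x) p₀ t (w x)) ∧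
      ∀ x ∈ Z, ∀ y ∈ Z, x ≠ y → ∀ i, i ∈ wsupp (w x) → i ∈ wsupp (w y) → i ∈ root t := by
  classical
  choose Q hQ hQmax using exists_maxFam M p₀
  by_cases hinf : ∃ t, (Q t).Infinite
  · obtain ⟨t, ht⟩ := hinf
    have hne : Nonempty (Wi J) := ⟨(⟨∅, by simp⟩, fun _ => (⟨∅, by simp⟩, ⟨∅, by simp⟩))⟩
    have hinj : InjOn Prod.fst (Q t) := by
      intro c hc d hd hcd
      by_contra hne
      exact ((hQ t).2 c hc d hd hne).1 hcd
    have hw : ∀ x : Λ, ∃ w : Wi J, x ∈ Prod.fst '' Q t → (x, w) ∈ Q t := by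
      intro x
      by_cases hx : x ∈ Prod.fst '' Q t
      · obtain ⟨⟨y, w⟩, hyw, rfl⟩ := hx
        exact ⟨w, fun _ => hyw⟩
      · exact ⟨hne.some, fun h' => absurd h' hx⟩
    choose w hw using hw
    refine ⟨t, Prod.fst '' Q t, w, ht.image hinj, fun x hx => (hQ t).1 _ (hw x hx), ?_⟩
    intro x hx y hy hxy
    exact ((hQ t).2 _ (hw x hx) _ (hw y hy) (fun h' => hxy (congrArg Prod.fst h'))).2
  exfalso
  push Not at hinf
  let E : Ty J → Set J := fun t => ⋃ c ∈ Q t, wsupp c.2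
  have hE : ∀ t, (E t).Countable := fun t =>
    (hinf t).countable.biUnion fun c _ => wsupp_countable _
  have hctbl : ∀ {α : Type} {s : Set α}, s.Countable → #s ≤ 𝔠 := fun hs =>
    (Cardinal.le_aleph0_iff_set_countable.2 hs).trans aleph0_le_continuum
  obtain ⟨R, hj₀, hR, hcl⟩ := exists_closed j₀
    (fun e : ℕ → J => ⋃ t ∈ {t : Ty J | root t ⊆ range e}, E t) (fun e =>
      mk_biUnion_le_continuum _ _ (mk_types (hctbl (countable_range e))) fun t _ => hctbl (hE t))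
  obtain ⟨x, hxU, hx⟩ := h R (⋃ t ∈ {t : Ty J | root t ⊆ R}, Prod.fst '' Q t) hR
    (mk_biUnion_le_continuum _ _ (mk_types hR) fun t _ =>
      hctbl ((hinf t).image _).countable)
  obtain ⟨t, w, htR, hw, hws⟩ := exists_witness (M x) p₀ R hx
  have hxt : ∀ v, (x, v) ∉ Q t := fun v hv => hxU (mem_iUnion₂.2 ⟨t, htR, (x, v), hv, rfl⟩)
  have hER : E t ⊆ R := by
    obtain ⟨e, he⟩ := ((root_countable t).insert j₀).exists_eq_range (insert_nonempty _ _)
    have h1 : ∀ n, e n ∈ R := by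
      intro n
      have h2 : e n ∈ insert j₀ (root t) := by
        rw [he]
        exact mem_range_self n
      rcases h2 with h2 | h2
      · rw [h2]
        exact hj₀
      · exact htR h2
    refine Subset.trans ?_ (hcl e h1)
    intro i hi
    refine mem_iUnion₂.2 ⟨t, ?_, hi⟩
    show root t ⊆ range e
    rw [← he]
    exact subset_insert _ _
  refine hxt w (hQmax t (x, w) ⟨?_, ?_⟩)
  · rintro c (rfl | hc)
    · exact hw
    · exact (hQ t).1 c hc
  · have key : ∀ d ∈ Q t, ∀ i, i ∈ wsupp w → i ∈ wsupp d.2 → i ∈ root t := by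
      intro d hd i hi hi'
      exact hws i hi (hER (mem_iUnion₂.2 ⟨d, hd, hi'⟩))
    rintro c (rfl | hc) d (rfl | hd) hcd
    · exact absurd rfl hcd
    · refine ⟨fun h' => ?_, key d hd⟩
      refine hxt d.2 ?_
      have : (x, d.2) = d := Prod.ext h' rfl
      rwa [this]
    · refine ⟨fun h' => ?_, fun i hi hi' => key c hc i hi' hi⟩
      refine hxt c.2 ?_
      have : (x, c.2) = c := Prod.ext h'.symm rfl
      rwa [this]
    · exact (hQ t).2 c hc d hd hcd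

end Pool.Agent.H87.CPos
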