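import Mathlib

/-!
# Finite partial functions: the root lemma and the countable chain condition
-/

set_option autoImplicit false

namespace Pool.Agent.H87.CPos

open Cardinal Set

/-- A finite partial function from `J` to `Bool`, given by its graph. -/
@[ext] structure Fn (J : Type) where
  s : Finset (J × Bool)
  fn : ∀ i, (i, true) ∈ s → (i, false) ∉ s

/-- Cohen conditions are ordered by reverse inclusion. -/
instance (J : Type) : Preorder (Fn J) where
  le q p := p.s ⊆ q.s
  le_refl _ := Finset.Subset.refl _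
  le_trans _ _ _ h h' := Finset.Subset.trans h' h

theorem Fn.le_def {J : Type} {q p : Fn J} : q ≤ p ↔ p.s ⊆ q.s := Iff.rfl

instance (J : Type) : Nonempty (Fn J) := ⟨⟨∅, by simp⟩⟩

theorem Fn.eq_of {J : Type} (p : Fn J) {i : J} {b c : Bool} (h : (i, b) ∈ p.s)
    (h' : (i, c) ∈ p.s) : b = c := by
  cases b <;> cases c
  · rfl
  · exact absurd h (p.fn i h')
  · exact absurd h' (p.fn i h)
  · rfl

/-- The domain of a condition. -/
def Fn.supp {J : Type} (p : Fn J) : Set J := {i | ∃ b, (i, b) ∈ p.s}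

theorem Fn.supp_finite {J : Type} (p : Fn J) : p.supp.Finite := by
  classical
  refine (p.s.image Prod.fst).finite_toSet.subset ?_
  rintro i ⟨b, hb⟩
  exact Finset.mem_coe.2 (Finset.mem_image.2 ⟨(i, b), hb, rfl⟩)

theorem Fn.supp_mono {J : Type} {p q : Fn J} (h : q ≤ p) : p.supp ⊆ q.supp :=
  fun _ ⟨b, hb⟩ => ⟨b, h hb⟩

/-- The conditions `p`, `q` have the same restriction to `R`. -/
def Agree {J : Type} (R : Set J) (p q : Fn J) : Prop := ∀ i ∈ R, ∀ b, (i, b) ∈ p.s ↔ (i, b) ∈ q.s

/-- The restriction of a condition. -/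
noncomputable def Fn.res {J : Type} (R : Set J) (p : Fn J) : Fn J :=
  haveI := Classical.decPred fun x : J × Bool => x.1 ∈ R
  ⟨p.s.filter fun x => x.1 ∈ R, fun i h h' =>
    p.fn i (Finset.mem_filter.1 h).1 (Finset.mem_filter.1 h').1⟩

theorem Fn.mem_res {J : Type} {R : Set J} {p : Fn J} {i : J} {b : Bool} :
    (i, b) ∈ (p.res R).s ↔ (i, b) ∈ p.s ∧ i ∈ R := by
  simp [Fn.res]

theorem Fn.supp_res {J : Type} {R : Set J} {p : Fn J} : (p.res R).supp ⊆ R := by
  rintro i ⟨b, hb⟩
  exact (Fn.mem_res.1 hb).2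

/-- Adding one value. -/
theorem Fn.exists_insert {J : Type} (p : Fn J) (i : J) (b : Bool) (h : ∀ c, (i, c) ∈ p.s → c = b) :
    ∃ r : Fn J, ∀ x, x ∈ r.s ↔ x = (i, b) ∨ x ∈ p.s := by
  classical
  refine ⟨⟨insert (i, b) p.s, fun j h1 h2 => ?_⟩, fun x => by simp⟩
  rw [Finset.mem_insert] at h1 h2
  rcases h1 with h1 | h1 <;> rcases h2 with h2 | h2
  · have h3 : (true : Bool) = false := by
      have e1 := congrArg Prod.snd h1
      have e2 := congrArg Prod.snd h2
      simp only at e1 e2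
      rw [e1, e2]
    exact absurd h3 (by simp)
  · have e1 := congrArg Prod.fst h1
    have e2 := congrArg Prod.snd h1
    simp only at e1 e2
    subst e1
    subst e2
    exact absurd (h false h2) (by simp)
  · have e1 := congrArg Prod.fst h2
    have e2 := congrArg Prod.snd h2
    simp only at e1 e2
    subst e1
    subst e2
    exact absurd (h true h1) (by simp)
  · exact p.fn j h1 h2

/-- The union of two conditions without conflict. -/
theorem Fn.exists_union {J : Type} (p q : Fn J)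
    (h : ∀ i b c, (i, b) ∈ p.s → (i, c) ∈ q.s → b = c) :
    ∃ r : Fn J, ∀ x, x ∈ r.s ↔ x ∈ p.s ∨ x ∈ q.s := by
  classical
  refine ⟨⟨p.s ∪ q.s, fun i h1 h2 => ?_⟩, fun x => by simp⟩
  rw [Finset.mem_union] at h1 h2
  rcases h1 with h1 | h1 <;> rcases h2 with h2 | h2
  · exact p.fn i h1 h2
  · exact absurd (h i _ _ h1 h2) (by simp)
  · exact absurd (h i _ _ h2 h1) (by simp)
  · exact q.fn i h1 h2

/-- The union of finitely many conditions without conflicts. -/
theorem Fn.exists_biUnion {J ι : Type} (T : Finset ι) (f : ι → Fn J)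
    (h : ∀ a ∈ T, ∀ a' ∈ T, ∀ i b c, (i, b) ∈ (f a).s → (i, c) ∈ (f a').s → b = c) :
    ∃ r : Fn J, ∀ x, x ∈ r.s ↔ ∃ a ∈ T, x ∈ (f a).s := by
  classical
  refine ⟨⟨T.biUnion fun a => (f a).s, fun i h1 h2 => ?_⟩, fun x => by simp⟩
  rw [Finset.mem_biUnion] at h1 h2
  obtain ⟨a, ha, h1⟩ := h1
  obtain ⟨a', ha', h2⟩ := h2
  exact absurd (h a ha a' ha' i _ _ h1 h2) (by simp)

/-- **Root lemma.** If for each countable set `a` there is a triple `(z, p, q)` with property `W`
such that `p`, `q` agree on `a`, then there is a condition `r` such that for each countable `b`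
there is such a triple which moreover extends `r` and is disjoint from `b` outside of `r`. -/
theorem exists_root {J Z : Type} (W : Z → Fn J → Fn J → Prop)
    (h : ∀ a : Set J, a.Countable → ∃ z p q, W z p q ∧ Agree a p q) :
    ∃ r : Fn J, ∀ b : Set J, b.Countable → ∃ z p q, W z p q ∧ Agree b p q ∧ p ≤ r ∧ q ≤ r ∧
      ∀ i ∈ b, (i ∈ p.supp ∨ i ∈ q.supp) → i ∈ r.supp := by
  classical
  -- the size can be fixed
  obtain ⟨n, hn⟩ : ∃ n : ℕ, ∀ a : Set J, a.Countable →
      ∃ z p q, W z p q ∧ Agree a p q ∧ p.s.card ≤ n := by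
    by_contra hcon
    push Not at hcon
    choose a ha hcon using hcon
    obtain ⟨z, p, q, hW, hag⟩ := h (⋃ n, a n) (countable_iUnion ha)
    have := hcon p.s.card z p q hW (fun i hi => hag i (mem_iUnion.2 ⟨_, hi⟩))
    exact absurd this (lt_irrefl _)
  let Good : Fn J → Prop := fun r => ∀ a : Set J, a.Countable →
    ∃ z p q, W z p q ∧ Agree a p q ∧ p.s.card ≤ n ∧ p ≤ r ∧ q ≤ r
  have hgood0 : Good ⟨∅, by simp⟩ := by
    intro a ha
    obtain ⟨z, p, q, h1, h2, h3⟩ := hn a ha
    exact ⟨z, p, q, h1, h2, h3, by simp [Fn.le_def], by simp [Fn.le_def]⟩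
  have hle : ∀ r, Good r → r.s.card ≤ n := by
    intro r hr
    obtain ⟨z, p, q, -, -, h3, h4, -⟩ := hr ∅ countable_empty
    exact (Finset.card_le_card h4).trans h3
  obtain ⟨r, hr, hmax⟩ : ∃ r, Good r ∧ ∀ r', Good r' → r'.s.card ≤ r.s.card := by
    have hex : ∃ k, ∃ r, Good r ∧ n - r.s.card = k := ⟨_, _, hgood0, rfl⟩
    obtain ⟨r, hr, hk⟩ := Nat.find_spec hex
    refine ⟨r, hr, fun r' hr' => ?_⟩
    have h1 := Nat.find_min' hex ⟨r', hr', rfl⟩
    have h2 := hle r hr
    have h3 := hle r' hr'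
    omega
  refine ⟨r, fun b hb => ?_⟩
  have hext : ∀ x : J × Bool, ∃ a : Set J, a.Countable ∧ (x.1 ∉ r.supp →
      ∀ z p q, W z p q → Agree a p q → p.s.card ≤ n → p ≤ r → q ≤ r → x ∈ p.s → x ∉ q.s) := by
    rintro ⟨i, c⟩
    by_cases hi : i ∈ r.supp
    · exact ⟨∅, countable_empty, fun h' => absurd hi h'⟩
    · obtain ⟨r', hr'⟩ := r.exists_insert i c (fun c' hc' => absurd ⟨c', hc'⟩ hi)
      have hbad : ¬ Good r' := by
        intro hg
        have h1 := hmax r' hg
        have h2 : insert (i, c) r.s ⊆ r'.s := by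
          intro x hx
          rw [Finset.mem_insert] at hx
          exact (hr' x).2 hx
        have h3 := Finset.card_le_card h2
        rw [Finset.card_insert_of_notMem (fun h' => hi ⟨c, h'⟩)] at h3
        omega
      simp only [Good] at hbad
      push Not at hbad
      obtain ⟨a, ha, hbad⟩ := hbad
      refine ⟨a, ha, fun _ z p q hW hag hc hp hq hxp hxq => ?_⟩
      refine hbad z p q hW hag hc ?_ ?_
      · intro y hy
        rcases (hr' y).1 hy with rfl | hy
        · exact hxp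
        · exact hp hy
      · intro y hy
        rcases (hr' y).1 hy with rfl | hy
        · exact hxq
        · exact hq hy
  choose a ha hext using hext
  let A : Set J := b ∪ ⋃ i ∈ b, ⋃ c, a (i, c)
  have hA : A.Countable := hb.union (hb.biUnion fun i _ => countable_iUnion fun c => ha (i, c))
  obtain ⟨z, p, q, h1, h2, h3, h4, h5⟩ := hr A hA
  refine ⟨z, p, q, h1, fun i hi => h2 i (Or.inl hi), h4, h5, fun i hi hsupp => ?_⟩
  by_contra hir
  have key : ∀ c, (i, c) ∈ p.s → (i, c) ∈ q.s → False := by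
    intro c hc hc'
    refine hext (i, c) hir z p q h1 (fun j hj => h2 j (Or.inr ?_)) h3 h4 h5 hc hc'
    exact mem_biUnion hi (mem_iUnion.2 ⟨c, hj⟩)
  rcases hsupp with ⟨c, hc⟩ | ⟨c, hc⟩
  · exact key c hc ((h2 i (Or.inl hi) c).1 hc)
  · exact key c ((h2 i (Or.inl hi) c).2 hc) hc

/-- The countable chain condition. -/
theorem ccc {J : Type} (T : Set (Fn J))
    (hT : ∀ p ∈ T, ∀ q ∈ T, p ≠ q → ¬ ∃ r : Fn J, r ≤ p ∧ r ≤ q) : T.Countable := by
  classical
  by_contra hunc
  -- fix the size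
  obtain ⟨n, hn⟩ : ∃ n : ℕ, ¬ {p ∈ T | p.s.card ≤ n}.Countable := by
    by_contra hcon
    push Not at hcon
    refine hunc ((countable_iUnion hcon).mono ?_)
    intro p hp
    exact mem_iUnion.2 ⟨p.s.card, hp, le_rfl⟩
  let Good : Fn J → Prop := fun r => ¬ {p ∈ T | p.s.card ≤ n ∧ p ≤ r}.Countable
  have hgood0 : Good ⟨∅, by simp⟩ := by
    intro hc
    refine hn (hc.mono ?_)
    intro p hp
    exact ⟨hp.1, hp.2, by simp [Fn.le_def]⟩
  have hle : ∀ r, Good r → r.s.card ≤ n := by
    intro r hr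
    have hne : {p ∈ T | p.s.card ≤ n ∧ p ≤ r}.Nonempty := by
      rw [Set.nonempty_iff_ne_empty]
      intro he
      apply hr
      rw [he]
      exact countable_empty
    obtain ⟨p, -, h3, h4⟩ := hne
    exact (Finset.card_le_card h4).trans h3
  obtain ⟨r, hr, hmax⟩ : ∃ r, Good r ∧ ∀ r', Good r' → r'.s.card ≤ r.s.card := by
    have hex : ∃ k, ∃ r, Good r ∧ n - r.s.card = k := ⟨_, _, hgood0, rfl⟩
    obtain ⟨r, hr, hk⟩ := Nat.find_spec hex
    refine ⟨r, hr, fun r' hr' => ?_⟩
    have h1 := Nat.find_min' hex ⟨r', hr', rfl⟩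
    have h2 := hle r hr
    have h3 := hle r' hr'
    omega
  have hne : {p ∈ T | p.s.card ≤ n ∧ p ≤ r}.Nonempty := by
    rw [Set.nonempty_iff_ne_empty]
    intro he
    apply hr
    rw [he]
    exact countable_empty
  obtain ⟨p₀, hp₀, h3, h4⟩ := hne
  -- the one-point extensions
  let B : J × Bool → Set (Fn J) := fun x => if x.1 ∈ r.supp then ∅ else
    {p ∈ T | p.s.card ≤ n ∧ p ≤ r ∧ x ∈ p.s}
  have hB : ∀ x, (B x).Countable := by
    rintro ⟨i, c⟩
    by_cases hi : i ∈ r.supp
    · simp [B, hi]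
    · obtain ⟨r', hr'⟩ := r.exists_insert i c (fun c' hc' => absurd ⟨c', hc'⟩ hi)
      have hbad : ¬ Good r' := by
        intro hg
        have h1 := hmax r' hg
        have h2 : insert (i, c) r.s ⊆ r'.s := by
          intro x hx
          rw [Finset.mem_insert] at hx
          exact (hr' x).2 hx
        have h3 := Finset.card_le_card h2
        rw [Finset.card_insert_of_notMem (fun h' => hi ⟨c, h'⟩)] at h3
        omega
      simp only [Good, not_not] at hbad
      refine hbad.mono ?_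
      intro p hp
      simp only [B, hi, if_false] at hp
      obtain ⟨h1, h2, h3, h4⟩ := hp
      refine ⟨h1, h2, ?_⟩
      intro y hy
      rcases (hr' y).1 hy with rfl | hy
      · exact h4
      · exact h3 hy
  apply hr
  have hcount : (insert p₀ (⋃ x ∈ (p₀.s.image fun x : J × Bool => (x.1, !x.2)), B x)).Countable :=
    ((Finset.countable_toSet _).biUnion fun x _ => hB x).insert _
  refine hcount.mono ?_
  rintro p ⟨hpT, hpn, hpr⟩
  by_cases hpp : p = p₀
  · exact Or.inl hpp
  right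
  have hinc := hT p hpT p₀ hp₀ hpp
  by_contra hcon
  apply hinc
  obtain ⟨u, hu⟩ := p.exists_union p₀ (by
    intro i b c hb hc
    by_contra hbc
    apply hcon
    have hir : i ∉ r.supp := by
      rintro ⟨d, hd⟩
      exact hbc ((p.eq_of hb (hpr hd)).trans (p₀.eq_of (h4 hd) hc))
    have hbc' : b = !c := by
      cases b <;> cases c <;> simp_all
    refine mem_iUnion₂.2 ⟨(i, b), ?_, ?_⟩
    · refine Finset.mem_image.2 ⟨(i, c), hc, ?_⟩
      rw [hbc']
    · simp only [B, hir, if_false]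
      exact ⟨hpT, hpn, hpr, hb⟩)
  exact ⟨u, fun x hx => (hu x).2 (Or.inl hx), fun x hx => (hu x).2 (Or.inr hx)⟩

end Pool.Agent.H87.CPos
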