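import Pool.Agent.H87.CPos.Family

/-!
# Cohen forcing: every family of more than `2 ^ ω` subsets of `ω₁` has an infinite independent
subfamily
-/

set_option autoImplicit false

namespace Pool.Agent.H87.CPos

open Cardinal Set
open Pool.Agent.Helper292.ForceCH (fnot fand fall fimp fiff fex fground meets IsFun IsOnto Om
  OmegaOnePreserved mem_fex mem_fimp down_meets meets_of_dense fimp_of down_fnot Down)

/-- a condition forcing that two sets are different can be extended to decide a point of the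
symmetric difference -/
theorem exists_diff {P Z : Type} [Preorder P] {A B : Z → Set P} {p : P}
    (h : p ∈ fnot (fall fun z => fiff (meets (A z)) (meets (B z)))) :
    ∃ z, ∃ q ≤ p, (q ∈ meets (A z) ∧ q ∈ fnot (meets (B z))) ∨
      (q ∈ meets (B z) ∧ q ∈ fnot (meets (A z))) := by
  by_contra hcon
  push Not at hcon
  refine h p le_rfl fun z => ⟨mem_fimp.2 fun q hq hA => ?_, mem_fimp.2 fun q hq hB => ?_⟩
  · by_contra hc
    push Not at hc
    exact (hcon z q hq).1 hA fun r hr hB => hc r hr hB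
  · by_contra hc
    push Not at hc
    exact (hcon z q hq).2 hB fun r hr hA => hc r hr hA

/-- The counting lemma. -/
theorem counting {J Λ : Type} {κ : Cardinal.{0}} (hJ : #J ≤ κ) (hc : 2 ^ 𝔠 ≤ κ)
    (hκ : κ ^ ℵ₀ = κ) (hΛ : κ < #Λ) (X : Λ → Om → Set (Fn J)) (p₀ : Fn J) (hp : p₀ ∈ Distinct X)
    (R : Set J) (U : Set Λ) (hR : #R ≤ 𝔠) (hU : #U ≤ 𝔠) :
    ∃ x, x ∉ U ∧ ∀ a : Set J, a.Countable → ∃ (z : Om) (p q : Fn J), (p ≤ p₀ ∧ q ≤ p₀ ∧
      Agree R p q ∧ p ∈ meets (X x z) ∧ q ∈ fnot (meets (X x z))) ∧ Agree a p q := by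
  classical
  have h0 : ℵ₀ ≤ κ := aleph0_le_continuum.trans ((cantor 𝔠).le.trans hc)
  have h𝔠 : 𝔠 ≤ κ := (cantor 𝔠).le.trans hc
  by_contra hcon
  push Not at hcon
  let L : {a : Set J // a.Countable} → Set Λ := fun a => {x | ∀ (z : Om) (p q : Fn J), p ≤ p₀ →
    q ≤ p₀ → Agree (R ∪ a.1) p q → p ∈ meets (X x z) → q ∉ fnot (meets (X x z))}
  have hcover : (univ : Set Λ) ⊆ U ∪ ⋃ a, L a := by
    intro x _
    by_cases hx : x ∈ U
    · exact Or.inl hx
    · right
      obtain ⟨a, ha, h1⟩ := hcon x hx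
      refine mem_iUnion.2 ⟨⟨a, ha⟩, fun z p q hp hq hag h2 h3 => ?_⟩
      exact h1 z p q ⟨hp, hq, fun i hi => hag i (Or.inl hi), h2, h3⟩ fun i hi => hag i (Or.inr hi)
  have hL : ∀ a, #(L a) ≤ κ := by
    intro a
    let R' : Set J := R ∪ a.1
    have hR' : #R' ≤ 𝔠 := by
      refine (mk_union_le _ _).trans ?_
      refine (add_le_add hR ((Cardinal.le_aleph0_iff_set_countable.2 a.2).trans
        aleph0_le_continuum)).trans ?_
      rw [Cardinal.add_eq_self aleph0_le_continuum]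
    let f : L a → Set ({s : Fn J // s.supp ⊆ R'} × Om) := fun x =>
      {y | ∃ p ≤ p₀, p ∈ meets (X x.1 y.2) ∧ Agree R' p y.1.1}
    have hf : Function.Injective f := by
      have key : ∀ x y : L a, f x = f y → ∀ (z : Om) (q : Fn J), q ≤ p₀ → q ∈ meets (X x.1 z) →
          q ∉ fnot (meets (X y.1 z)) := by
        intro x y hxy z q hq h1 h2
        have h3 : ((⟨q.res R', Fn.supp_res⟩, z) : {s : Fn J // s.supp ⊆ R'} × Om) ∈ f x :=
          ⟨q, hq, h1, fun i hi b => ⟨fun h' => Fn.mem_res.2 ⟨h', hi⟩, fun h' => (Fn.mem_res.1 h').1⟩⟩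
        rw [hxy] at h3
        obtain ⟨p, hp, h4, h5⟩ := h3
        refine y.2 z p q hp hq ?_ h4 h2
        intro i hi b
        rw [h5 i hi b]
        exact ⟨fun h' => (Fn.mem_res.1 h').1, fun h' => Fn.mem_res.2 ⟨h', hi⟩⟩
      intro x y hxy
      by_contra hne
      obtain ⟨z, q, hq, h | h⟩ := exists_diff (hp x.1 y.1 fun h' => hne (Subtype.ext h'))
      · exact key x y hxy z q hq h.1 h.2
      · exact key y x hxy.symm z q hq h.1 h.2
    refine (mk_le_of_injective hf).trans ?_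
    rw [mk_set]
    refine le_trans (Cardinal.power_le_power_left two_ne_zero ?_) hc
    rw [mk_prod, lift_id, lift_id]
    have h4 : #Om = ℵ₁ := by simp
    rw [h4]
    exact (mul_le_mul' (mk_over hR') aleph_one_le_continuum).trans continuum_mul_self.le
  have h1 : #Λ ≤ κ := by
    rw [← mk_univ]
    refine (Cardinal.mk_le_mk_of_subset hcover).trans ?_
    refine (mk_union_le _ _).trans ?_
    refine (add_le_add (hU.trans h𝔠) ?_).trans (Cardinal.add_eq_self h0).le
    refine (Cardinal.mk_iUnion_le_sum_mk).trans ?_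
    refine (Cardinal.sum_le_sum _ (fun _ => κ) hL).trans ?_
    rw [Cardinal.sum_const']
    exact (mul_le_mul' (mk_countable_sets hJ h0 hκ) le_rfl).trans (Cardinal.mul_eq_self h0).le
  exact absurd h1 (not_le.2 hΛ)

theorem extend_all {J Λ : Type} (Z : Set Λ) (r : Λ → Fn J) (S : Finset Λ) (q : Fn J)
    (h : ∀ i ∈ S, q ∈ meets {u : Fn J | i ∈ Z ∧ u ≤ r i}) :
    ∃ q' ≤ q, ∀ i ∈ S, i ∈ Z ∧ q' ≤ r i := by
  classical
  induction S using Finset.induction_on with
  | empty => exact ⟨q, le_rfl, by simp⟩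
  | insert a S ha ih =>
    obtain ⟨q', hq', h1⟩ := ih fun i hi => h i (Finset.mem_insert_of_mem hi)
    obtain ⟨u, hu, s, hs, hus⟩ := h a (Finset.mem_insert_self a S) q' hq'
    refine ⟨u, hu.trans hq', fun i hi => ?_⟩
    rcases Finset.mem_insert.1 hi with rfl | hi
    · exact ⟨hs.1, hus.trans hs.2⟩
    · exact ⟨(h1 i hi).1, hu.trans (h1 i hi).2⟩

/-- a finite set meets only finitely many members of a disjoint family -/
theorem finite_bad {J ι : Type} (F : Set J) (hF : F.Finite) (Z : Set ι) (S : ι → Set J)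
    (hS : ∀ x ∈ Z, ∀ y ∈ Z, x ≠ y → ∀ i, i ∈ S x → i ∉ S y) :
    {x ∈ Z | ∃ i ∈ F, i ∈ S x}.Finite := by
  have h1 : {x ∈ Z | ∃ i ∈ F, i ∈ S x} = ⋃ i ∈ F, {x ∈ Z | i ∈ S x} := by
    ext x
    simp only [mem_ofPred_eq, mem_iUnion, exists_prop]
    tauto
  rw [h1]
  refine hF.biUnion fun i _ => Set.Subsingleton.finite ?_
  intro x hx y hy
  by_contra hne
  exact hS x hx.1 y hy.1 hne i hx.2 hy.2

theorem force_family {J Λ : Type} (X : Λ → Om → Set (Fn J)) (q : Fn J) (t : Ty J) (Z : Set Λ)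
    (w : Λ → Wi J) (hZ : Z.Infinite) (hw : ∀ x ∈ Z, IsWi (fun z => meets (X x z)) q t (w x))
    (hdisj : ∀ x ∈ Z, ∀ y ∈ Z, x ≠ y → ∀ i, i ∈ wsupp (w x) → i ∈ wsupp (w y) → i ∈ root t) :
    ∃ r ≤ q, r ∈ fex fun W : Λ → Set (Fn J) => fand (InfiniteName W) (IndepName X W) := by
  classical
  -- the condition
  obtain ⟨x₀, hx₀⟩ := hZ.nonempty
  have ht : t.1.s ⊆ (w x₀).1.s := by
    rintro ⟨i, b⟩ hib
    exact ((hw x₀ hx₀).ag₀ i (Or.inl ⟨b, hib⟩) b).2 hib
  obtain ⟨r, hr⟩ := q.exists_union t.1 (fun i b c hb hc =>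
    (w x₀).1.eq_of ((hw x₀ hx₀).le₀ hb) (ht hc))
  have hrt : r ≤ t.1 := fun x hx => (hr x).2 (Or.inr hx)
  refine ⟨r, fun x hx => (hr x).2 (Or.inl hx), mem_fex.2 fun u hu =>
    ⟨u, le_rfl, fun x => {v : Fn J | x ∈ Z ∧ v ≤ (w x).1}, ?_, ?_⟩⟩
  · -- infinite
    intro F
    refine mem_fex.2 fun v hv => ?_
    have hbad := finite_bad v.supp v.supp_finite Z (fun x => wsupp (w x) \ root t) (by
      intro x hx y hy hxy i hi hi'
      exact hi.2 (hdisj x hx y hy hxy i hi.1 hi'.1))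
    obtain ⟨x, hxZ, hx⟩ : ∃ x ∈ Z, x ∉ {x ∈ Z | ∃ i ∈ v.supp, i ∈ wsupp (w x) \ root t} ∪ ↑F := by
      have h1 := (hZ.sdiff (hbad.union F.finite_toSet)).nonempty
      obtain ⟨x, hx⟩ := h1
      exact ⟨x, hx.1, hx.2⟩
    obtain ⟨v', hv'⟩ := v.exists_union (w x).1 (by
      intro i b c hb hc
      have hi : i ∈ root t := by
        by_contra hi
        exact hx (Or.inl ⟨hxZ, i, ⟨b, hb⟩, Or.inl ⟨c, hc⟩, hi⟩)
      have h1 := ((hw x hxZ).ag₀ i hi c).1 hc
      exact v.eq_of hb (hv (hu (hrt h1))))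
    refine ⟨v', fun y hy => (hv' y).2 (Or.inl hy), x, fun hxF => hx (Or.inr hxF), ?_⟩
    intro q hq
    exact ⟨q, le_rfl, (w x).1, ⟨hxZ, le_rfl⟩, hq.trans fun y hy => (hv' y).2 (Or.inr hy)⟩
  · -- independent
    intro A B
    refine mem_fimp.2 fun v hv hAB => ⟨v, le_rfl, mem_fex.2 fun q₁ hq₁ => ?_⟩
    obtain ⟨hAB1, hAB2⟩ := hAB
    have hAB1 : Disjoint A B := hAB1
    obtain ⟨q', hq', hall⟩ := extend_all Z (fun x => (w x).1) (A ∪ B) q₁ (fun i hi =>
      down_meets _ _ (hAB2 i (Finset.mem_union.1 hi)) _ hq₁)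
    -- the index
    have hbad : ∀ x ∈ A ∪ B, {n ∈ (univ : Set ℕ) | ∃ i ∈ q'.supp, i ∈
        {i | (i ∈ ((w x).2 n).1.supp ∨ i ∈ ((w x).2 n).2.supp) ∧ i ∉ (w x).1.supp}}.Finite := by
      intro x hx
      have hxZ := (hall x hx).1
      refine finite_bad q'.supp q'.supp_finite univ (fun n =>
        {i | (i ∈ ((w x).2 n).1.supp ∨ i ∈ ((w x).2 n).2.supp) ∧ i ∉ (w x).1.supp}) ?_
      intro m _ n _ hmn i hi hi'
      rcases lt_or_gt_of_ne hmn with h | h
      · exact hi.2 ((hw x hxZ).disj m n h i hi.1 hi'.1)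
      · exact hi.2 ((hw x hxZ).disj n m h i hi'.1 hi.1)
    have hbad2 := (A ∪ B).finite_toSet.biUnion hbad
    obtain ⟨n, hn⟩ := hbad2.infinite_compl.nonempty
    have hn' : ∀ x ∈ A ∪ B, ∀ i ∈ q'.supp, (i ∈ ((w x).2 n).1.supp ∨ i ∈ ((w x).2 n).2.supp) →
        i ∈ (w x).1.supp := by
      intro x hx i hi hi'
      by_contra hc
      exact hn (mem_iUnion₂.2 ⟨x, hx, mem_univ _, i, hi, hi', hc⟩)
    -- the conditions to be glued
    let f : Option Λ → Fn J := fun o => match o with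
      | none => q'
      | some x => if x ∈ A then ((w x).2 n).1 else ((w x).2 n).2
    have hfsome : ∀ x, f (some x) = if x ∈ A then ((w x).2 n).1 else ((w x).2 n).2 := fun x => rfl
    have hfsupp : ∀ x i b, (i, b) ∈ (f (some x)).s →
        (i ∈ ((w x).2 n).1.supp ∨ i ∈ ((w x).2 n).2.supp) := by
      intro x i b hb
      rw [hfsome] at hb
      split_ifs at hb
      · exact Or.inl ⟨b, hb⟩
      · exact Or.inr ⟨b, hb⟩
    have hfle : ∀ x ∈ A ∪ B, f (some x) ≤ (w x).1 := by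
      intro x hx
      rw [hfsome]
      split_ifs
      · exact (hw x (hall x hx).1).le₁ n
      · exact (hw x (hall x hx).1).le₂ n
    have hfag : ∀ x ∈ A ∪ B, Agree (root t) (f (some x)) (t.2 n).2 := by
      intro x hx
      rw [hfsome]
      split_ifs
      · exact (hw x (hall x hx).1).ag₁ n
      · exact (hw x (hall x hx).1).ag₂ n
    have h1 : ∀ x ∈ A ∪ B, ∀ i b c, (i, b) ∈ q'.s → (i, c) ∈ (f (some x)).s → b = c := by
      intro x hx i b c hb hc
      obtain ⟨d, hd⟩ := hn' x hx i ⟨b, hb⟩ (hfsupp x i c hc)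
      exact (q'.eq_of hb ((hall x hx).2 hd)).trans ((f (some x)).eq_of (hfle x hx hd) hc)
    obtain ⟨g, hg⟩ := Fn.exists_biUnion (Finset.insertNone (A ∪ B)) f (by
      rintro (_ | x) hx (_ | y) hy i b c hb hc
      · exact q'.eq_of hb hc
      · exact h1 y (Finset.some_mem_insertNone.1 hy) i b c hb hc
      · exact (h1 x (Finset.some_mem_insertNone.1 hx) i c b hc hb).symm
      · rw [Finset.some_mem_insertNone] at hx hy
        by_cases hxy : x = y
        · subst hxy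
          exact (f (some x)).eq_of hb hc
        · have hi : i ∈ root t := hdisj x (hall x hx).1 y (hall y hy).1 hxy i
            (Or.inr ⟨n, hfsupp x i b hb⟩) (Or.inr ⟨n, hfsupp y i c hc⟩)
          exact (t.2 n).2.eq_of ((hfag x hx i hi b).1 hb) ((hfag y hy i hi c).1 hc))
    have hgq : g ≤ q' := fun y hy => (hg y).2 ⟨none, by simp, hy⟩
    have hgx : ∀ x ∈ A ∪ B, g ≤ f (some x) := fun x hx y hy =>
      (hg y).2 ⟨some x, Finset.some_mem_insertNone.2 hx, hy⟩
    refine ⟨g, hgq.trans hq', (t.2 n).1, fun x => ⟨fun hxA => ?_, fun hxB => ?_⟩⟩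
    · have hx : x ∈ A ∪ B := Finset.mem_union_left _ hxA
      have h2 := hgx x hx
      rw [hfsome, if_pos hxA] at h2
      exact down_meets _ _ ((hw x (hall x hx).1).mem₁ n) _ h2
    · have hx : x ∈ A ∪ B := Finset.mem_union_right _ hxB
      have hxA : x ∉ A := fun hxA => Finset.disjoint_left.1 hAB1 hxA hxB
      have h2 := hgx x hx
      rw [hfsome, if_neg hxA] at h2
      exact down_fnot _ _ ((hw x (hall x hx).1).mem₂ n) _ h2

theorem down_distinct {P Λ Z : Type} [Preorder P] (X : Λ → Z → Set P) : Down (Distinct X) :=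
  fun _ hp _ hq i j hij => down_fnot _ _ (hp i j hij) _ hq

/-- If `#Λ ≤ #J` then there are pairwise distinct reals indexed by `Λ`. -/
theorem atMost_of_le {J Λ : Type} [Infinite J] (h : #Λ ≤ #J) (p : Fn J) :
    p ∈ AtMostContinuum (Fn J) Λ := by
  obtain ⟨ι⟩ := (Cardinal.le_def _ _).1 h
  have h2 : #(J × ℕ) = #J := by
    rw [mk_prod, lift_id, lift_id, mk_nat, Cardinal.mul_aleph0_eq (Cardinal.aleph0_le_mk J)]
  obtain ⟨e⟩ := Cardinal.eq.1 h2
  refine mem_fex.2 fun q _ => ⟨q, le_rfl, _, distinct_cohen (fun x n => e (ι x, n)) ?_ q⟩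
  intro x y hxy F hF
  have hinj1 : Function.Injective fun n : ℕ => e (ι x, n) := fun m n h => by
    have := e.injective h
    exact congrArg Prod.snd this
  have hinj2 : Function.Injective fun n : ℕ => e (ι y, n) := fun m n h => by
    have := e.injective h
    exact congrArg Prod.snd this
  have hfin : ((fun n : ℕ => e (ι x, n)) ⁻¹' F ∪ (fun n : ℕ => e (ι y, n)) ⁻¹' F).Finite :=
    (hF.preimage hinj1.injOn).union (hF.preimage hinj2.injOn)
  obtain ⟨n, hn⟩ := hfin.infinite_compl.nonempty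
  refine ⟨n, fun h' => ?_, fun h' => hn (Or.inl h'), fun h' => hn (Or.inr h')⟩
  have h3 := congrArg Prod.fst (e.injective h')
  exact hxy (ι.injective h3)

/-- The independence principle is forced. -/
theorem indepHolds {J : Type} (hκ : #J ^ ℵ₀ = #J) (hc : 2 ^ 𝔠 ≤ #J) (p : Fn J) :
    p ∈ IndepHolds (Fn J) := by
  have h0 : ℵ₀ ≤ #J := aleph0_le_continuum.trans ((cantor 𝔠).le.trans hc)
  have : Infinite J := Cardinal.infinite_iff.2 h0
  intro Λ X
  refine mem_fimp.2 fun q _ hq => ?_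
  have hΛ : #J < #Λ := by
    by_contra hcon
    exact hq.2 q le_rfl (atMost_of_le (not_lt.1 hcon) q)
  obtain ⟨j₀⟩ : Nonempty J := inferInstance
  obtain ⟨t, Z, w, hZ, hw, hdisj⟩ := exists_family j₀ (fun x z => meets (X x z)) q
    (fun R U hR hU => counting le_rfl hc hκ hΛ X q hq.1 R U hR hU)
  exact force_family X q t Z w hZ hw hdisj

/-- `2 ^ ω < 2 ^ ω₁` is forced. -/
theorem luzinHolds {J : Type} (hκ : #J ^ ℵ₀ = #J) (h1 : #J < #J ^ (ℵ₁ : Cardinal.{0}))
    (h0 : ℵ₀ ≤ #J) (p : Fn J) : p ∈ LuzinHolds (Fn J) := by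
  have : Infinite J := Cardinal.infinite_iff.2 h0
  have h2 : #(J × ℕ) = #J := by
    rw [mk_prod, lift_id, lift_id, mk_nat, Cardinal.mul_aleph0_eq h0]
  obtain ⟨e⟩ := Cardinal.eq.1 h2
  have h4 : #Om = ℵ₁ := by simp
  have h3 : #Om = #(Om × ℕ) := by
    rw [mk_prod, lift_id, lift_id, mk_nat, h4, Cardinal.mul_aleph0_eq (Cardinal.aleph0_le_aleph 1)]
  obtain ⟨e₁⟩ := Cardinal.eq.1 h3
  have hΛ : #J < #(Om → J) := by
    rw [← Cardinal.power_def, h4]
    exact h1
  refine mem_fex.2 fun q _ => ⟨q, le_rfl, Om → J, mem_fex.2 fun r _ => ⟨r, le_rfl, _,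
    distinct_cohen (fun (x : Om → J) (z : Om) => e (x (e₁ z).1, (e₁ z).2)) ?_ r⟩, ?_⟩
  · intro x y hxy F hF
    obtain ⟨a, ha⟩ := Function.ne_iff.1 hxy
    have hinj1 : Function.Injective fun n : ℕ => e (x a, n) := fun m n h => by
      have := e.injective h
      exact congrArg Prod.snd this
    have hinj2 : Function.Injective fun n : ℕ => e (y a, n) := fun m n h => by
      have := e.injective h
      exact congrArg Prod.snd this
    have hfin : ((fun n : ℕ => e (x a, n)) ⁻¹' F ∪ (fun n : ℕ => e (y a, n)) ⁻¹' F).Finite :=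
      (hF.preimage hinj1.injOn).union (hF.preimage hinj2.injOn)
    obtain ⟨n, hn⟩ := hfin.infinite_compl.nonempty
    refine ⟨e₁.symm (a, n), ?_, ?_, ?_⟩
    · simp only [Equiv.apply_symm_apply]
      intro h'
      exact ha (congrArg Prod.fst (e.injective h'))
    · simp only [Equiv.apply_symm_apply]
      exact fun h' => hn (Or.inl h')
    · simp only [Equiv.apply_symm_apply]
      exact fun h' => hn (Or.inr h')
  · intro r _ hr
    obtain ⟨s, _, Y, hY⟩ := mem_fex.1 hr r le_rfl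
    exact not_distinct le_rfl h0 hκ hΛ Y s hY

end Pool.Agent.H87.CPos
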