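import Mathlib

/-!
# The cardinal `κ = ℶ_{ω₁}`
-/

set_option autoImplicit false

namespace Pool.Agent.H87.CPos

open Cardinal Set Ordinal Order

theorem cof_kappa : (ℶ_ ω₁ : Cardinal.{0}).ord.cof = ℵ₁ := by
  have h1 : Order.IsNormal (Cardinal.ord ∘ Cardinal.beth.{0}) := isNormal_ord.comp isNormal_beth
  have h2 : IsSuccLimit (ω₁ : Ordinal.{0}) := isSuccLimit_omega 1
  have h3 := cof_map_of_isNormal h1 h2
  simp only [Function.comp_apply] at h3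
  rw [h3, cof_omega_one]

theorem kappa_lt : (ℶ_ ω₁ : Cardinal.{0}) < ℶ_ ω₁ ^ (ℵ₁ : Cardinal.{0}) := by
  have := lt_power_cof_ord (aleph0_le_beth (ω₁ : Ordinal.{0}))
  rwa [cof_kappa] at this

theorem kappa_strong : IsStrongLimit (ℶ_ ω₁ : Cardinal.{0}) :=
  isStrongLimit_beth.2 (isSuccLimit_omega 1).isSuccPrelimit

theorem kappa_pow : (ℶ_ ω₁ : Cardinal.{0}) ^ ℵ₀ = ℶ_ ω₁ := by
  have h0 : ℵ₀ ≤ (ℶ_ ω₁ : Cardinal.{0}) := aleph0_le_beth _
  refine le_antisymm ?_ (Cardinal.self_le_power _ one_le_aleph0)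
  let J : Type := (ℶ_ ω₁ : Cardinal.{0}).out
  have hJ : #J = ℶ_ ω₁ := mk_out _
  have hNJ : #(ℕ × J) = ℶ_ ω₁ := by
    rw [mk_prod, Cardinal.lift_id, Cardinal.lift_id, mk_nat, hJ, Cardinal.aleph0_mul_eq h0]
  have hlim : IsStrongPrelimit #(ℕ × J) := by
    rw [hNJ]
    exact kappa_strong.isStrongPrelimit
  have h1 := mk_subset_mk_lt_cof hlim
  rw [hNJ, cof_kappa] at h1
  rw [← hJ, ← mk_nat, Cardinal.power_def, hJ, ← h1]
  let f : (ℕ → J) → {s : Set (ℕ × J) // #s < ℵ₁} := fun u =>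
    ⟨range fun n => (n, u n), by
      refine lt_of_le_of_lt ?_ aleph0_lt_aleph_one
      exact Cardinal.le_aleph0_iff_set_countable.2 (countable_range _)⟩
  refine mk_le_of_injective (f := f) fun u v h => ?_
  have h2 : (range fun n => (n, u n)) = range fun n => (n, v n) := congrArg Subtype.val h
  funext n
  have h3 : ((n, u n) : ℕ × J) ∈ range fun n => (n, v n) := by
    rw [← h2]
    exact ⟨n, rfl⟩
  obtain ⟨m, hm⟩ := h3
  have e1 := congrArg Prod.fst hm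
  have e2 := congrArg Prod.snd hm
  simp only at e1 e2
  rw [← e2, e1]

theorem two_pow_continuum_le : (2 : Cardinal.{0}) ^ (𝔠 : Cardinal.{0}) ≤ ℶ_ ω₁ := by
  have h1 : (𝔠 : Cardinal.{0}) < ℶ_ ω₁ := by
    rw [← beth_one, beth_lt_beth]
    exact (one_lt_omega0.trans_le (omega0_le_omega 1))
  exact (kappa_strong.isStrongPrelimit h1).le

/-- There is a type of size `κ` with `κ ^ ω = κ < κ ^ ω₁` and `2 ^ 2 ^ ω ≤ κ`. -/
theorem exists_index : ∃ J : Type, #J ^ ℵ₀ = #J ∧ 2 ^ 𝔠 ≤ #J ∧ #J < #J ^ (ℵ₁ : Cardinal.{0}) := by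
  refine ⟨(ℶ_ ω₁ : Cardinal.{0}).out, ?_⟩
  rw [mk_out]
  exact ⟨kappa_pow, two_pow_continuum_le, kappa_lt⟩

end Pool.Agent.H87.CPos
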