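import Pool.Agent.H87.CPos.Defs
import Pool.Agent.H87.CPos.Fn

/-!
# Cohen forcing: names of reals, `ω₁` is preserved, `2 ^ ω < 2 ^ ω₁`
-/

set_option autoImplicit false

namespace Pool.Agent.H87.CPos

open Cardinal Set
open Pool.Agent.Helper292.ForceCH (fnot fand fall fimp fiff fex fground meets IsFun IsOnto Om
  OmegaOnePreserved mem_fex mem_fimp down_meets meets_of_dense fimp_of down_fnot Down)

theorem maxanti {P : Type} [Preorder P] (D : Set P) :
    ∃ T : Set P, T ⊆ D ∧ (∀ p ∈ T, ∀ q ∈ T, p ≠ q → ¬ ∃ r : P, r ≤ p ∧ r ≤ q) ∧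
      ∀ p ∈ D, ∃ s ∈ T, ∃ r : P, r ≤ p ∧ r ≤ s := by
  classical
  obtain ⟨T, hT⟩ := zorn_subset {A : Set P | A ⊆ D ∧
      ∀ p ∈ A, ∀ q ∈ A, p ≠ q → ¬ ∃ r : P, r ≤ p ∧ r ≤ q} (by
    intro c hc hch
    refine ⟨⋃₀ c, ⟨Set.sUnion_subset fun A hA => (hc hA).1, ?_⟩, fun s hs => Set.subset_sUnion_of_mem hs⟩
    rintro p ⟨A, hA, hp⟩ q ⟨B, hB, hq⟩ hpq
    rcases hch.total hA hB with h | h
    · exact (hc hB).2 p (h hp) q hq hpq
    · exact (hc hA).2 p hp q (h hq) hpq)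
  refine ⟨T, hT.prop.1, hT.prop.2, fun p hp => ?_⟩
  by_contra hcon
  push Not at hcon
  have h1 : insert p T ∈ {A : Set P | A ⊆ D ∧
      ∀ p ∈ A, ∀ q ∈ A, p ≠ q → ¬ ∃ r : P, r ≤ p ∧ r ≤ q} := by
    refine ⟨Set.insert_subset hp hT.prop.1, ?_⟩
    rintro x (rfl | hx) y (rfl | hy) hxy
    · exact absurd rfl hxy
    · rintro ⟨r, hr1, hr2⟩
      exact hcon y hy r hr1 hr2
    · rintro ⟨r, hr1, hr2⟩
      exact hcon x hx r hr2 hr1
    · exact hT.prop.2 x hx y hy hxy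
  have h2 : p ∈ T := hT.le_of_ge h1 (Set.subset_insert p T) (Set.mem_insert p T)
  exact hcon p h2 p le_rfl le_rfl

/-- Every name of an element has a countable nice name. -/
theorem nice {J : Type} (N : Set (Fn J)) : ∃ T : Set (Fn J), T.Countable ∧ meets N = meets T := by
  obtain ⟨T, h1, h2, h3⟩ := maxanti (meets N)
  refine ⟨T, ccc T h2, Set.Subset.antisymm ?_ ?_⟩
  · intro p hp q hq
    obtain ⟨s, hs, r, hr, hrs⟩ := h3 q (down_meets _ _ hp _ hq)
    exact ⟨r, hr, s, hs, hrs⟩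
  · intro p hp
    refine meets_of_dense fun q hq => ?_
    obtain ⟨r, hr, s, hs, hrs⟩ := hp q hq
    exact ⟨r, hr, down_meets _ _ (h1 hs) _ hrs⟩

/-- The number of countable subsets. -/
theorem mk_countable_sets {X : Type} {κ : Cardinal.{0}} (hX : #X ≤ κ) (h0 : ℵ₀ ≤ κ)
    (hκ : κ ^ ℵ₀ = κ) : #{t : Set X // t.Countable} ≤ κ := by
  have h : #{t : Set X // t.Countable} = #{t : Set X // #t ≤ ℵ₀} := by
    congr 2
    ext t
    exact (Cardinal.le_aleph0_iff_set_countable).symm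
  rw [h]
  refine (Cardinal.mk_bounded_set_le X ℵ₀).trans ?_
  refine (Cardinal.power_le_power_right (max_le hX h0)).trans hκ.le

theorem mk_Fn_le {J : Type} {κ : Cardinal.{0}} (hJ : #J ≤ κ) (h0 : ℵ₀ ≤ κ) : #(Fn J) ≤ κ := by
  have h1 : #(Fn J) ≤ #(Finset (J × Bool)) :=
    Cardinal.mk_le_of_injective (f := Fn.s) fun p q h => Fn.ext h
  refine h1.trans ?_
  rcases finite_or_infinite (J × Bool) with hf | hf
  · exact (Cardinal.lt_aleph0_of_finite _).le.trans h0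
  · rw [Cardinal.mk_finset_of_infinite, mk_prod, lift_id, lift_id]
    refine (mul_le_mul' hJ (Cardinal.lt_aleph0_of_finite Bool).le).trans ?_
    exact (mul_le_mul' le_rfl h0).trans (Cardinal.mul_eq_self h0).le

theorem refl_fiff {P : Type} [Preorder P] (N : Set P) (p : P) : p ∈ fiff (meets N) (meets N) :=
  ⟨fimp_of fun _ _ h => h, fimp_of fun _ _ h => h⟩

/-- No condition forces that more than `κ = κ ^ ω` reals are pairwise distinct. -/
theorem not_distinct {J Λ : Type} {κ : Cardinal.{0}} (hJ : #J ≤ κ) (h0 : ℵ₀ ≤ κ)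
    (hκ : κ ^ ℵ₀ = κ) (hΛ : κ < #Λ) (Y : Λ → ℕ → Set (Fn J)) (p : Fn J) : p ∉ Distinct Y := by
  intro hp
  choose T hTc hT using fun (x : Λ) (n : ℕ) => nice (Y x n)
  let C : Λ → {t : Set (Fn J × ℕ) // t.Countable} := fun x =>
    ⟨⋃ n, (fun q => (q, n)) '' T x n, countable_iUnion fun n => (hTc x n).image _⟩
  have hC : ¬ Function.Injective C := by
    intro hinj
    have h1 := Cardinal.mk_le_of_injective hinj
    have h2 : #(Fn J × ℕ) ≤ κ := by
      rw [mk_prod, lift_id, lift_id, mk_nat]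
      exact (mul_le_mul' (mk_Fn_le hJ h0) h0).trans (Cardinal.mul_eq_self h0).le
    exact absurd (h1.trans (mk_countable_sets h2 h0 hκ)) (not_le.2 hΛ)
  simp only [Function.Injective] at hC
  push Not at hC
  obtain ⟨x, y, hxy, hne⟩ := hC
  have hTxy : ∀ n, T x n = T y n := by
    have h1 : (⋃ n, (fun q => (q, n)) '' T x n) = ⋃ n, (fun q => (q, n)) '' T y n :=
      congrArg Subtype.val hxy
    have key : ∀ (z : Λ) (n : ℕ) (q : Fn J), q ∈ T z n ↔ (q, n) ∈ ⋃ n, (fun q => (q, n)) '' T z n := by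
      intro z n q
      simp only [mem_iUnion, mem_image, Prod.mk.injEq]
      constructor
      · intro hq
        exact ⟨n, q, hq, rfl, rfl⟩
      · rintro ⟨m, r, hr, rfl, rfl⟩
        exact hr
    intro n
    ext q
    rw [key, key, h1]
  refine hp x y hne p le_rfl fun n => ?_
  show p ∈ fiff (meets (Y x n)) (meets (Y y n))
  rw [hT x n, hT y n, hTxy n]
  exact refl_fiff _ p

/-- Cohen reals are pairwise distinct. -/
theorem distinct_cohen {J Λ Z : Type} (j : Λ → Z → J)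
    (hj : ∀ x y, x ≠ y → ∀ F : Set J, F.Finite → ∃ z, j x z ≠ j y z ∧ j x z ∉ F ∧ j y z ∉ F)
    (p : Fn J) : p ∈ Distinct fun x z => {q : Fn J | (j x z, true) ∈ q.s} := by
  intro x y hxy q _ hq
  obtain ⟨z, h1, h2, h3⟩ := hj x y hxy q.supp q.supp_finite
  obtain ⟨r, hr⟩ := q.exists_insert (j x z) true fun c hc => absurd ⟨c, hc⟩ h2
  have h3' : j y z ∉ r.supp := by
    rintro ⟨c, hc⟩
    rcases (hr _).1 hc with h | h
    · exact h1 (congrArg Prod.fst h).symm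
    · exact h3 ⟨c, h⟩
  obtain ⟨t, ht⟩ := r.exists_insert (j y z) false fun c hc => absurd ⟨c, hc⟩ h3'
  have htr : t ≤ r := fun w hw => (ht w).2 (Or.inr hw)
  have hrq : r ≤ q := fun w hw => (hr w).2 (Or.inr hw)
  have h4 : t ∈ meets {q : Fn J | (j x z, true) ∈ q.s} := by
    intro u hu
    refine ⟨u, le_rfl, t, ?_, hu⟩
    exact (ht _).2 (Or.inr ((hr _).2 (Or.inl rfl)))
  obtain ⟨u, hu, h5⟩ := mem_fimp.1 (hq z).1 t (htr.trans hrq) h4
  obtain ⟨v, hv, s, hs, hvs⟩ := h5 u le_rfl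
  have h6 : (j y z, true) ∈ v.s := hvs hs
  have h7 : (j y z, false) ∈ v.s := hv (hu ((ht _).2 (Or.inl rfl)))
  exact v.fn _ h6 h7

theorem omegaOnePreserved {J : Type} (p : Fn J) : p ∈ OmegaOnePreserved (Fn J) := by
  intro q _ hq
  obtain ⟨r, _, R, hR, hR'⟩ := mem_fex.1 hq q le_rfl
  -- for each `n` the possible values
  have hval : ∀ n : ℕ, ∃ B : Set Om, B.Countable ∧ ∀ a, ∀ t ≤ r, t ∈ meets (R n a) → a ∈ B := by
    intro n
    obtain ⟨T, h1, h2, h3⟩ := maxanti {t : Fn J | t ≤ r ∧ ∃ a, t ∈ meets (R n a)}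
    have hTc := ccc T h2
    have h4 : ∀ t : T, ∃ a, t.1 ∈ meets (R n a) := fun t => (h1 t.2).2
    choose a ha using h4
    have : Countable T := hTc
    refine ⟨range a, countable_range a, fun b t ht hb => ?_⟩
    obtain ⟨s, hs, u, hu, hus⟩ := h3 t ⟨ht, b, hb⟩
    obtain ⟨v, _, h5⟩ := mem_fimp.1 (hR.2 n b (a ⟨s, hs⟩)) u (hu.trans ht)
      ⟨down_meets _ _ hb _ hu, down_meets _ _ (ha ⟨s, hs⟩) _ hus⟩
    have h6 : b = a ⟨s, hs⟩ := h5
    exact ⟨⟨s, hs⟩, h6.symm⟩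
  choose B hB hval using hval
  have hBc : (⋃ n, B n).Countable := countable_iUnion hB
  obtain ⟨c, hc⟩ : ∃ c : Om, c ∉ ⋃ n, B n := by
    by_contra hcon
    push Not at hcon
    have h1 : (univ : Set Om).Countable := hBc.mono fun x _ => hcon x
    rw [Set.countable_univ_iff, ← mk_le_aleph0_iff] at h1
    have h4 : #Om = ℵ₁ := by simp
    rw [h4] at h1
    exact absurd h1 (not_le.2 aleph0_lt_aleph_one)
  obtain ⟨t, ht, n, hn⟩ := mem_fex.1 (hR' c) r le_rfl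
  exact hc (mem_iUnion.2 ⟨n, hval n c t ht hn⟩)

end Pool.Agent.H87.CPos
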