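import Pool.Agent.H87.CPos.Defs
import Pool.Agent.H87.Lib.V1120.LuzinScattered

/-!
# Closures in scattered compact spaces when large families have infinite independent subfamilies
-/

set_option autoImplicit false

open Set Topology Filter
open Cardinal hiding univ

namespace Pool.Agent.H87.CPos

open Pool.Agent.Helper332.SADSpace (Scattered)
open Pool.Agent.V1120.LuzinSc (exists_right)
open Pool.Agent.Helper292.ForceCH (Om)

theorem totallyDisconnected_of_scattered {K : Type} [TopologicalSpace K] [T1Space K]
    (hK : Scattered K) : TotallyDisconnectedSpace K := by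
  refine ⟨fun t _ ht => ?_⟩
  by_contra hns
  rw [Set.not_subsingleton_iff] at hns
  obtain ⟨x, hx, O, hO, hOt⟩ := hK t hns.nonempty
  have hxO : x ∈ O := by
    have : x ∈ O ∩ t := by rw [hOt]; rfl
    exact this.1
  obtain ⟨y, hy, hyx⟩ := hns.exists_ne x
  obtain ⟨z, hz, hz1, hz2⟩ := ht O {x}ᶜ hO isClosed_singleton.isOpen_compl (fun z _ => by
    by_cases h : z = x
    · rw [h]
      exact Or.inl hxO
    · exact Or.inr h) ⟨x, hx, hxO⟩ ⟨y, hy, hyx⟩
  have h1 : z ∈ O ∩ t := ⟨hz1, hz⟩
  rw [hOt] at h1
  exact hz2 h1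

theorem not_isOpen_singleton (g : ℕ → Bool) : ¬ IsOpen ({g} : Set (ℕ → Bool)) := by
  classical
  intro ho
  have h1 : Tendsto (fun n => Function.update g n (!g n)) atTop (𝓝 g) := by
    rw [tendsto_pi_nhds]
    intro m
    refine tendsto_const_nhds.congr' ?_
    filter_upwards [eventually_gt_atTop m] with n hn
    rw [Function.update_of_ne (ne_of_lt hn)]
  have h2 := h1.eventually (ho.mem_nhds rfl)
  obtain ⟨n, hn⟩ := h2.exists
  have h3 : Function.update g n (!g n) = g := hn
  have h4 := congrFun h3 n
  rw [Function.update_self] at h4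
  cases h5 : g n <;> simp_all

/-- A scattered compact space does not map onto the Cantor set. -/
theorem not_surj_of_scattered {K : Type} [TopologicalSpace K] [CompactSpace K] [T2Space K]
    (hK : Scattered K) (f : K → ℕ → Bool) (hf : Continuous f) : ¬ Function.Surjective f := by
  intro hs
  obtain ⟨E, hE, hE1, hE2⟩ := exists_compact_surjective_zorn_subset hf hs
  have hEne : E.Nonempty := by
    have h1 : (f '' E).Nonempty := by
      rw [hE1]
      exact ⟨fun _ => true, trivial⟩
    exact h1.of_image
  obtain ⟨x, hx, O, hO, hOE⟩ := hK E hEne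
  have hopen : IsOpen ({⟨x, hx⟩} : Set E) := by
    have h1 : ({⟨x, hx⟩} : Set E) = Subtype.val ⁻¹' O := by
      ext ⟨y, hy⟩
      simp only [mem_singleton_iff, Subtype.mk.injEq, mem_preimage]
      constructor
      · rintro rfl
        have : y ∈ O ∩ E := by rw [hOE]; rfl
        exact this.1
      · intro h
        have : y ∈ O ∩ E := ⟨h, hy⟩
        rw [hOE] at this
        exact this
    rw [h1]
    exact hO.preimage continuous_subtype_val
  refine hE2 {⟨x, hx⟩}ᶜ ?_ hopen.isClosed_compl ?_
  · intro h
    have h1 : (⟨x, hx⟩ : E) ∈ ({⟨x, hx⟩}ᶜ : Set E) := by rw [h]; trivial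
    exact h1 rfl
  · have hcl : IsClosed (E.domRestrict f '' {⟨x, hx⟩}ᶜ) := by
      have h1 : IsCompact ({⟨x, hx⟩}ᶜ : Set E) := hopen.isClosed_compl.isCompact
      exact (h1.image (hf.comp continuous_subtype_val)).isClosed
    have hsub : {f x}ᶜ ⊆ E.domRestrict f '' {⟨x, hx⟩}ᶜ := by
      intro g hg
      have h1 : g ∈ f '' E := by rw [hE1]; trivial
      obtain ⟨y, hy, rfl⟩ := h1
      refine ⟨⟨y, hy⟩, ?_, rfl⟩
      intro h
      have h2 : y = x := congrArg Subtype.val h
      exact hg (by rw [h2]; rfl)
    by_contra hne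
    have h2 : E.domRestrict f '' {⟨x, hx⟩}ᶜ = {f x}ᶜ := by
      refine Subset.antisymm ?_ hsub
      intro g hg hgx
      apply hne
      rw [eq_univ_iff_forall]
      intro g'
      by_cases h : g' = f x
      · rw [h, ← show g = f x from hgx]
        exact hg
      · exact hsub h
    rw [h2] at hcl
    have h3 := hcl.isOpen_compl
    rw [compl_compl] at h3
    exact not_isOpen_singleton _ h3

/-- A scattered compact space has no infinite independent sequence of clopen sets. -/
theorem no_indep_clopen {K : Type} [TopologicalSpace K] [CompactSpace K] [T2Space K]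
    (hK : Scattered K) (V : ℕ → Set K) (hV : ∀ n, IsClopen (V n))
    (hind : ∀ (g : ℕ → Bool) (n : ℕ), ∃ k : K, ∀ m < n, (k ∈ V m ↔ g m = true)) : False := by
  classical
  let f : K → ℕ → Bool := fun k n => decide (k ∈ V n)
  have hf : Continuous f := by
    refine continuous_pi fun n => ?_
    rw [continuous_bool_rng true]
    have : (fun k => f k n) ⁻¹' {true} = V n := by
      ext k
      simp [f]
    rw [this]
    exact hV n
  refine not_surj_of_scattered hK f hf fun g => ?_
  let F : ℕ → Set K := fun n => {k | ∀ m < n, f k m = g m}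
  have hFcl : ∀ n, IsClosed (F n) := by
    intro n
    have : F n = ⋂ m, ⋂ _ : m < n, {k | f k m = g m} := by
      ext k
      simp [F]
    rw [this]
    refine isClosed_iInter fun m => isClosed_iInter fun _ => ?_
    exact isClosed_eq ((continuous_apply m).comp hf) continuous_const
  have hne : (⋂ n, F n).Nonempty := by
    refine IsCompact.nonempty_iInter_of_sequence_nonempty_isCompact_isClosed F ?_ ?_ ?_ hFcl
    · intro n k hk m hm
      exact hk m (hm.trans (Nat.lt_succ_self n))
    · intro n
      obtain ⟨k, hk⟩ := hind g n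
      refine ⟨k, fun m hm => ?_⟩
      have h1 := hk m hm
      cases h2 : g m
      · simp only [f, decide_eq_false_iff_not]
        intro h3
        have := h1.1 h3
        rw [h2] at this
        exact absurd this (by simp)
      · simp only [f, decide_eq_true_eq]
        exact h1.2 h2
    · exact (hFcl 0).isCompact
  obtain ⟨k, hk⟩ := hne
  exact ⟨k, funext fun m => mem_iInter.1 hk (m + 1) m (Nat.lt_succ_self m)⟩

/-- Closures of sets of size at most `ℵ₁` in scattered compact spaces have at most `2 ^ ω` points,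
if every family of more than `2 ^ ω` subsets of `ω₁` has an infinite independent subfamily. -/
theorem closure_le_of_indep (hI : IndepAx) {K : Type} [TopologicalSpace K] [CompactSpace K]
    [T2Space K] (hK : Scattered K) (A : Set K) (hA : #A ≤ ℵ₁) : #(closure A) ≤ 𝔠 := by
  classical
  by_contra hcon
  have := totallyDisconnected_of_scattered hK
  obtain ⟨U, hU, hUo, hUc⟩ := exists_right hK
  have h1 : ∀ x : K, ∃ V : Set K, IsClopen V ∧ x ∈ V ∧ V ⊆ insert x (U x) := fun x =>
    compact_exists_isClopen_in_isOpen (hUo x) (mem_insert _ _)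
  choose V hVc hVx hVU using h1
  have h4 : #Om = ℵ₁ := by simp
  have h5 : #A ≤ #Om := by rwa [h4]
  obtain ⟨ι⟩ := (Cardinal.le_def _ _).1 h5
  let X : closure A → Set Om := fun x => ι '' {a : A | (a : K) ∈ V x}
  have hX : Function.Injective X := by
    intro x y hxy
    have h6 : {a : A | (a : K) ∈ V x} = {a : A | (a : K) ∈ V y} :=
      (image_injective.2 ι.injective) hxy
    have hset : V x ∩ A = V y ∩ A := by
      ext z
      constructor
      · rintro ⟨hz1, hz2⟩
        have : (⟨z, hz2⟩ : A) ∈ {a : A | (a : K) ∈ V x} := hz1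
        rw [h6] at this
        exact ⟨this, hz2⟩
      · rintro ⟨hz1, hz2⟩
        have : (⟨z, hz2⟩ : A) ∈ {a : A | (a : K) ∈ V y} := hz1
        rw [← h6] at this
        exact ⟨this, hz2⟩
    have hx : (x : K) ∈ closure (V x ∩ A) := (hVc x).2.inter_closure ⟨hVx x, x.2⟩
    have hy : (y : K) ∈ closure (V y ∩ A) := (hVc y).2.inter_closure ⟨hVx y, y.2⟩
    by_contra hne
    have hne' : (x : K) ≠ y := fun h => hne (Subtype.ext h)
    rcases hUc x y hne' with h | h
    · rw [← hset] at hy
      exact hU y (h (hVU x (closure_minimal inter_subset_left (hVc x).1 hy)))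
    · rw [hset] at hx
      exact hU x (h (hVU y (closure_minimal inter_subset_left (hVc y).1 hx)))
  have hbig : ¬ ∃ Y : closure A → Set ℕ, Function.Injective Y := by
    rintro ⟨Y, hY⟩
    apply hcon
    refine (mk_le_of_injective hY).trans ?_
    rw [mk_set, mk_nat, two_power_aleph0]
  obtain ⟨W, hWinf, hW⟩ := hI (closure A) X hX hbig
  obtain ⟨w₀, hw₀⟩ := hWinf.nonempty
  have hW' : (W \ {w₀}).Infinite := hWinf.sdiff (finite_singleton w₀)
  let e := hW'.natEmbedding
  refine no_indep_clopen hK (fun n => V (e n).1) (fun n => hVc _) fun g n => ?_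
  have hinj : Function.Injective fun m => (e m).1 := fun m m' h =>
    e.injective (Subtype.ext h)
  let S : Finset (closure A) := insert w₀
    (((Finset.range n).filter fun m => g m = true).image fun m => (e m).1)
  let T : Finset (closure A) :=
    ((Finset.range n).filter fun m => g m = false).image fun m => (e m).1
  obtain ⟨z, hz⟩ := hW S T (by
    rw [Finset.disjoint_left]
    intro i hi hi'
    obtain ⟨m', hm', hm2⟩ := Finset.mem_image.1 hi'
    rcases Finset.mem_insert.1 hi with h | h
    · have h7 := (e m').2.2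
      apply h7
      rw [mem_singleton_iff, hm2, h]
    · obtain ⟨m, hm, hm1⟩ := Finset.mem_image.1 h
      have h8 : m = m' := hinj (hm1.trans hm2.symm)
      subst h8
      have h9 := (Finset.mem_filter.1 hm).2
      have h10 := (Finset.mem_filter.1 hm').2
      rw [h9] at h10
      exact absurd h10 (by simp)) (by
    rintro i (hi | hi)
    · rcases Finset.mem_insert.1 hi with rfl | h
      · exact hw₀
      · obtain ⟨m, -, rfl⟩ := Finset.mem_image.1 h
        exact (e m).2.1
    · obtain ⟨m, -, rfl⟩ := Finset.mem_image.1 hi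
      exact (e m).2.1)
  obtain ⟨a, ha, haz⟩ := (hz w₀).1 (Finset.mem_insert_self _ _)
  refine ⟨a, fun m hm => ⟨fun hmem => ?_, fun hg => ?_⟩⟩
  · by_contra hg
    have hg' : g m = false := by simpa using hg
    refine (hz (e m).1).2 (Finset.mem_image.2 ⟨m, Finset.mem_filter.2
      ⟨Finset.mem_range.2 hm, hg'⟩, rfl⟩) ?_
    exact ⟨a, hmem, haz⟩
  · obtain ⟨b, hb, hbz⟩ := (hz (e m).1).1 (Finset.mem_insert_of_mem (Finset.mem_image.2
      ⟨m, Finset.mem_filter.2 ⟨Finset.mem_range.2 hm, hg⟩, rfl⟩))
    have hab : a = b := ι.injective (haz.trans hbz.symm)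
    rw [hab]
    exact hb

theorem luzin_lt (h : LuzinAx) : (𝔠 : Cardinal.{0}) < 2 ^ (ℵ₁ : Cardinal.{0}) := by
  obtain ⟨Λ, ⟨X, hX⟩, hY⟩ := h
  have h4 : #Om = ℵ₁ := by simp
  have h1 := mk_le_of_injective hX
  rw [mk_set, h4] at h1
  refine lt_of_lt_of_le ?_ h1
  by_contra hcon
  have h2 : #Λ ≤ #(Set ℕ) := by
    rw [mk_set, mk_nat, two_power_aleph0]
    exact not_lt.1 hcon
  obtain ⟨φ⟩ := (Cardinal.le_def _ _).1 h2
  exact hY ⟨φ, φ.injective⟩

/-- **Q1 under the two principles.** -/
theorem positive (hL : LuzinAx) (hI : IndepAx) (K : Type) [TopologicalSpace K] [CompactSpace K]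
    [T2Space K] (hK : Scattered K) (Y : Type) [TopologicalSpace Y] [CompactSpace Y] [T2Space Y]
    (f : {g : K → ℝ // Continuous g} → Y) (hf : Continuous f) (hs : Function.Surjective f) :
    TopologicalSpace.MetrizableSpace Y := by
  refine Pool.Agent.V1120.Luzin.main K (fun A hA => ?_) Y f hf hs
  have : CompactSpace (closure A) := isCompact_iff_compactSpace.1 isClosed_closure.isCompact
  exact (Pool.Agent.V1120.Luzin.mk_C_le (closure A) (closure_le_of_indep hI hK A hA)).trans_lt
    (luzin_lt hL)

end Pool.Agent.H87.CPos
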