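import Pool.Agent.H87.CPos.Defs

/-!
# The sentences of the forcing language for the trivial forcing notion are the plain statements
-/

set_option autoImplicit false

namespace Pool.Agent.H87.CPos

open Cardinal Set
open Pool.Agent.Helper292.ForceCH (fnot fand fall fimp fiff fex fground meets Om mem_fex mem_fimp)

theorem unit_fnot {φ : Set Unit} : () ∈ fnot φ ↔ () ∉ φ :=
  ⟨fun h => h () le_rfl, fun h _ _ => h⟩

theorem unit_fex {ι : Type*} {φ : ι → Set Unit} : () ∈ fex φ ↔ ∃ i, () ∈ φ i := by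
  rw [mem_fex]
  constructor
  · intro h
    obtain ⟨_, _, i, hi⟩ := h () le_rfl
    exact ⟨i, hi⟩
  · rintro ⟨i, hi⟩ q _
    exact ⟨q, le_rfl, i, hi⟩

theorem unit_fimp {φ ψ : Set Unit} : () ∈ fimp φ ψ ↔ (() ∈ φ → () ∈ ψ) := by
  rw [mem_fimp]
  constructor
  · intro h h'
    obtain ⟨_, _, hi⟩ := h () le_rfl h'
    exact hi
  · intro h q _ h'
    exact ⟨q, le_rfl, h h'⟩

theorem unit_meets {N : Set Unit} : () ∈ meets N ↔ () ∈ N := by
  constructor
  · intro h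
    obtain ⟨_, _, s, hs, _⟩ := h () le_rfl
    exact hs
  · intro h q _
    exact ⟨q, le_rfl, (), h, le_rfl⟩

theorem unit_distinct {Λ Z : Type} (X : Λ → Z → Set Unit) :
    () ∈ Distinct X ↔ Function.Injective fun i => {z | () ∈ X i z} := by
  constructor
  · intro h i j hij
    by_contra hne
    refine unit_fnot.1 (h i j hne) fun z => ?_
    have h1 : () ∈ X i z ↔ () ∈ X j z := by
      have : z ∈ {z | () ∈ X i z} ↔ z ∈ {z | () ∈ X j z} := by
        rw [show {z | () ∈ X i z} = {z | () ∈ X j z} from hij]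
      exact this
    exact ⟨unit_fimp.2 fun h => unit_meets.2 (h1.1 (unit_meets.1 h)),
      unit_fimp.2 fun h => unit_meets.2 (h1.2 (unit_meets.1 h))⟩
  · intro h i j hne
    refine unit_fnot.2 fun hc => hne (h ?_)
    ext z
    have h1 := hc z
    exact ⟨fun h => unit_meets.1 (unit_fimp.1 h1.1 (unit_meets.2 h)),
      fun h => unit_meets.1 (unit_fimp.1 h1.2 (unit_meets.2 h))⟩

theorem unit_atMost (Λ : Type) :
    () ∈ AtMostContinuum Unit Λ ↔ ∃ Y : Λ → Set ℕ, Function.Injective Y := by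
  rw [AtMostContinuum, unit_fex]
  constructor
  · rintro ⟨Y, hY⟩
    exact ⟨_, (unit_distinct Y).1 hY⟩
  · rintro ⟨Y, hY⟩
    exact ⟨fun i n => {_x | n ∈ Y i}, (unit_distinct _).2 hY⟩

theorem unit_luzin : (∀ p : Unit, p ∈ LuzinHolds Unit) ↔ LuzinAx := by
  have h1 : (∀ p : Unit, p ∈ LuzinHolds Unit) ↔ () ∈ LuzinHolds Unit :=
    ⟨fun h => h (), fun h _ => h⟩
  rw [h1, LuzinHolds, unit_fex]
  refine exists_congr fun Λ => ?_
  constructor
  · rintro ⟨h2, h3⟩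
    obtain ⟨X, hX⟩ := unit_fex.1 h2
    exact ⟨⟨_, (unit_distinct X).1 hX⟩, fun h => unit_fnot.1 h3 ((unit_atMost Λ).2 h)⟩
  · rintro ⟨⟨X, hX⟩, h3⟩
    exact ⟨unit_fex.2 ⟨fun i z => {_x | z ∈ X i}, (unit_distinct _).2 hX⟩,
      unit_fnot.2 fun h => h3 ((unit_atMost Λ).1 h)⟩

theorem unit_infinite {Λ : Type} (W : Λ → Set Unit) :
    () ∈ InfiniteName W ↔ {i | () ∈ W i}.Infinite := by
  constructor
  · intro h hfin
    obtain ⟨i, hi, hi'⟩ := unit_fex.1 (h hfin.toFinset)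
    exact hi (hfin.mem_toFinset.2 (unit_meets.1 hi'))
  · intro h F
    obtain ⟨i, hi⟩ := (h.sdiff F.finite_toSet).nonempty
    exact unit_fex.2 ⟨i, fun h' => hi.2 h', unit_meets.2 hi.1⟩

theorem unit_indepName {Λ Z : Type} (X : Λ → Z → Set Unit) (W : Λ → Set Unit) :
    () ∈ IndepName X W ↔ Indep (fun i => {z | () ∈ X i z}) {i | () ∈ W i} := by
  constructor
  · intro h A B hAB hW
    obtain ⟨z, hz⟩ := unit_fex.1 (unit_fimp.1 (h A B) ⟨hAB, fun i hi => unit_meets.2 (hW i hi)⟩)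
    refine ⟨z, fun i => ⟨fun hi => unit_meets.1 ((hz i).1 hi), fun hi h' => ?_⟩⟩
    exact unit_fnot.1 ((hz i).2 hi) (unit_meets.2 h')
  · intro h A B
    refine unit_fimp.2 fun hAB => unit_fex.2 ?_
    obtain ⟨z, hz⟩ := h A B hAB.1 fun i hi => unit_meets.1 (hAB.2 i hi)
    refine ⟨z, fun i => ⟨fun hi => unit_meets.2 ((hz i).1 hi), fun hi => unit_fnot.2 fun h' => ?_⟩⟩
    exact (hz i).2 hi (unit_meets.1 h')

theorem unit_indep : (∀ p : Unit, p ∈ IndepHolds Unit) ↔ IndepAx := by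
  have h1 : (∀ p : Unit, p ∈ IndepHolds Unit) ↔ () ∈ IndepHolds Unit :=
    ⟨fun h => h (), fun h _ => h⟩
  rw [h1]
  constructor
  · intro h Λ X hX hΛ
    obtain ⟨W, hW1, hW2⟩ := unit_fex.1 (unit_fimp.1 (h Λ fun i z => {_x | z ∈ X i})
      ⟨(unit_distinct _).2 hX, unit_fnot.2 fun h' => hΛ ((unit_atMost Λ).1 h')⟩)
    exact ⟨{i | () ∈ W i}, (unit_infinite W).1 hW1, (unit_indepName _ W).1 hW2⟩
  · intro h Λ X
    refine unit_fimp.2 fun hX => unit_fex.2 ?_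
    obtain ⟨W, hW1, hW2⟩ := h Λ _ ((unit_distinct X).1 hX.1)
      fun h' => unit_fnot.1 hX.2 ((unit_atMost Λ).2 h')
    exact ⟨fun i => {_x | i ∈ W}, (unit_infinite _).2 hW1, (unit_indepName X _).2 hW2⟩

end Pool.Agent.H87.CPos
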